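import Mathlib

namespace Pool.Agent.Lib.MP_e8b612_co
open Finset

lemma int_of_isIntegral_rat {q : ℚ} (h : IsIntegral ℤ (q : ℂ)) : ∃ z : ℤ, (z : ℚ) = q := by
  have h1 : IsIntegral ℤ q := by
    have : (q : ℂ) = algebraMap ℚ ℂ q := by simp
    rw [this] at h
    exact (isIntegral_algebraMap_iff (algebraMap ℚ ℂ).injective).1 h
  obtain ⟨z, hz⟩ := (IsIntegrallyClosed.isIntegral_iff).1 h1
  exact ⟨z, by simpa using hz⟩

lemma dvd_of_isIntegral {a : ℤ} {d : ℕ} (hd : 0 < d) {w : ℂ} (hw : IsIntegral ℤ w)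
    (h : (a : ℂ) = d * w) : (d : ℤ) ∣ a := by
  have hd' : (d : ℂ) ≠ 0 := by exact_mod_cast hd.ne'
  have : w = (((a : ℚ) / d : ℚ) : ℂ) := by
    push_cast; field_simp; rw [h]; ring
  rw [this] at hw
  obtain ⟨z, hz⟩ := int_of_isIntegral_rat hw
  refine ⟨z, ?_⟩
  have hdq : (d : ℚ) ≠ 0 := by exact_mod_cast hd.ne'
  have : (a : ℚ) = d * z := by rw [hz]; field_simp
  exact_mod_cast this

lemma isIntegral_conj {w : ℂ} (hw : IsIntegral ℤ w) : IsIntegral ℤ ((starRingEnd ℂ) w) :=
  hw.map ((starRingEnd ℂ).toIntAlgHom)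

/-- real version of the two-valuedness -/
lemma real_struct {m : ℕ} (hm : 2 < m) (r : Fin m → ℝ) (κ : ℝ) (hκ : 0 < κ)
    (hr : ∀ i, r i ^ 2 - r i = κ) (hs : ∑ i, r i = 1) :
    ∃ α β : ℕ, 1 ≤ β ∧ β < α ∧ Nat.Coprime α β ∧ (α + β) ∣ (m - 2) ∧
      (∀ i, r i * ((α : ℝ) - β) = α ∨ r i * ((α : ℝ) - β) = -β) ∧
      (∃ i, r i * ((α : ℝ) - β) = α) ∧ (∃ i, r i * ((α : ℝ) - β) = -β) := by
  classical
  set R : ℝ := (1 + Real.sqrt (1 + 4 * κ)) / 2 with hR
  have hsq : Real.sqrt (1 + 4 * κ) ^ 2 = 1 + 4 * κ := Real.sq_sqrt (by linarith)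
  have hs1 : 1 < Real.sqrt (1 + 4 * κ) := by
    rw [Real.lt_sqrt (by norm_num)]; linarith
  have hR1 : 1 < R := by rw [hR]; linarith
  have hRR : R ^ 2 - R = κ := by rw [hR]; nlinarith
  have hcase : ∀ i, r i = R ∨ r i = 1 - R := by
    intro i
    have : (r i - R) * (r i - (1 - R)) = 0 := by nlinarith [hr i]
    rcases mul_eq_zero.1 this with h | h
    · left; linarith
    · right; linarith
  set P := univ.filter (fun i => r i = R) with hP
  set M := univ.filter (fun i => ¬ r i = R) with hM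
  have hcard : P.card + M.card = m := by
    rw [hP, hM, Finset.card_filter_add_card_filter_not]; simp
  have hsum : (P.card : ℝ) * R + M.card * (1 - R) = 1 := by
    have h0 := Finset.sum_filter_add_sum_filter_not univ (fun i => r i = R) r
    have h1 : ∑ i ∈ P, r i = P.card * R := by
      rw [Finset.sum_congr rfl (g := fun _ => R)]
      · simp
      · intro i hi; exact (Finset.mem_filter.1 hi).2
    have h2 : ∑ i ∈ M, r i = M.card * (1 - R) := by
      rw [Finset.sum_congr rfl (g := fun _ => 1 - R)]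
      · rw [Finset.sum_const, nsmul_eq_mul]
      · intro i hi
        rcases hcase i with h | h
        · exact absurd h (Finset.mem_filter.1 hi).2
        · exact h
    rw [← h1, ← h2, h0, hs]
  set u := P.card
  set v := M.card
  have key : R * ((v : ℝ) - u) = v - 1 := by linarith
  have hv1 : 1 ≤ v := by
    by_contra h
    have hv0 : v = 0 := by omega
    have hu : (u : ℝ) = m := by
      have : u = m := by omega
      exact_mod_cast this
    have : (3 : ℝ) ≤ m := by exact_mod_cast hm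
    rw [hv0, hu] at key
    simp at key
    nlinarith
  have hv1' : (1 : ℝ) ≤ v := by exact_mod_cast hv1
  have huv : u < v := by
    by_contra h
    have h' : (v : ℝ) ≤ u := by exact_mod_cast (not_lt.1 h)
    have h1 : (v : ℝ) - 1 ≤ 0 := by rw [← key]; nlinarith
    have h2 : (v : ℝ) = 1 := by linarith
    have h3 : v = 1 := by exact_mod_cast h2
    have h4 : R * ((v : ℝ) - u) = 0 := by rw [key, h2]; ring
    have h5 : (v : ℝ) - u = 0 := by
      rcases mul_eq_zero.1 h4 with h | h
      · linarith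
      · exact h
    have h6 : u = v := by
      have : (u : ℝ) = v := by linarith
      exact_mod_cast this
    omega
  have huv' : (u : ℝ) < v := by exact_mod_cast huv
  have hu2 : 2 ≤ u := by
    have h1 : (v : ℝ) - u < v - 1 := by rw [← key]; nlinarith
    have h2 : (1 : ℝ) < u := by linarith
    have : 1 < u := by exact_mod_cast h2
    omega
  obtain ⟨α, β, hcop, ha, hb⟩ := Nat.exists_coprime (v - 1) (u - 1)
  set y := Nat.gcd (v - 1) (u - 1)
  have hy : 0 < y := Nat.gcd_pos_of_pos_left _ (by omega)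
  have hβ : 1 ≤ β := by
    rcases Nat.eq_zero_or_pos β with h | h
    · rw [h] at hb; omega
    · exact h
  have hαβ : β < α := by
    by_contra h
    have : α * y ≤ β * y := Nat.mul_le_mul_right _ (not_lt.1 h)
    omega
  have hvR : (v : ℝ) = α * y + 1 := by
    have : v = α * y + 1 := by omega
    exact_mod_cast this
  have huR : (u : ℝ) = β * y + 1 := by
    have : u = β * y + 1 := by omega
    exact_mod_cast this
  have hyR : (0 : ℝ) < y := by exact_mod_cast hy
  have hRα : R * ((α : ℝ) - β) = α := by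
    have : (R * ((α : ℝ) - β) - α) * y = 0 := by
      rw [hvR, huR] at key; linarith
    rcases mul_eq_zero.1 this with h | h
    · linarith
    · linarith
  have hRβ : (1 - R) * ((α : ℝ) - β) = -β := by linarith
  refine ⟨α, β, hβ, hαβ, hcop, ⟨y, ?_⟩, ?_, ?_, ?_⟩
  · rw [add_mul]; omega
  · intro i
    rcases hcase i with h | h
    · left; rw [h]; exact hRα
    · right; rw [h]; exact hRβ
  · have : 0 < P.card := by omega
    obtain ⟨i, hi⟩ := Finset.card_pos.1 this
    exact ⟨i, by rw [(Finset.mem_filter.1 hi).2]; exact hRα⟩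
  · have : 0 < M.card := by omega
    obtain ⟨i, hi⟩ := Finset.card_pos.1 this
    rcases hcase i with h | h
    · exact absurd h (Finset.mem_filter.1 hi).2
    · exact ⟨i, by rw [h]; exact hRβ⟩

/-- the structure of the character values -/
lemma char_struct {m lam : ℕ} (hm : 2 < m) (hl : 0 < lam) (a : Fin m → ℂ)
    (hint : ∀ i, IsIntegral ℤ (a i))
    (heq : ∀ i, a i * (starRingEnd ℂ) ((∑ j, a j) - a i) = -lam) (hs : ∑ j, a j ≠ 0) :
    ∃ α β T : ℕ, ∃ θ : ℂ, 1 ≤ β ∧ β < α ∧ Nat.Coprime α β ∧ (α + β) ∣ (m - 2) ∧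
      lam = α * β * T ∧ IsIntegral ℤ θ ∧ θ * (starRingEnd ℂ) θ = T ∧
      ∑ j, a j = ((α : ℂ) - β) * θ ∧
      (∀ i, a i = α * θ ∨ a i = -β * θ) ∧ (∃ i, a i = α * θ) ∧ (∃ i, a i = -β * θ) := by
  set s := ∑ j, a j with hsdef
  have hN : 0 < Complex.normSq s := Complex.normSq_pos.2 hs
  set r : Fin m → ℝ := fun i => (Complex.normSq (a i) - lam) / Complex.normSq s with hr
  have hNc : (Complex.normSq s : ℂ) ≠ 0 := by exact_mod_cast hN.ne'
  have har : ∀ i, a i = r i * s := by
    intro i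
    have h1 := heq i
    rw [map_sub, mul_sub, Complex.mul_conj] at h1
    have h2 : a i * (starRingEnd ℂ) s = Complex.normSq (a i) - lam := by linear_combination h1
    have h3 : s * (starRingEnd ℂ) s = Complex.normSq s := Complex.mul_conj s
    simp only [hr]
    push_cast
    field_simp
    rw [← h2, ← h3]; ring
  have hsum : ∑ i, r i = 1 := by
    have h1 : (∑ i, (r i : ℂ)) * s = 1 * s := by
      rw [Finset.sum_mul, one_mul]
      conv_rhs => rw [hsdef]
      exact Finset.sum_congr rfl (fun i _ => (har i).symm)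
    have h2 := mul_right_cancel₀ hs h1
    exact_mod_cast h2
  have hquad : ∀ i, r i ^ 2 - r i = lam / Complex.normSq s := by
    intro i
    have h1 := heq i
    rw [har i] at h1
    have h3 : s * (starRingEnd ℂ) s = Complex.normSq s := Complex.mul_conj s
    simp only [map_sub, map_mul, Complex.conj_ofReal] at h1
    have h4 : ((r i : ℂ) ^ 2 - r i) * Complex.normSq s = lam := by
      rw [← h3]; linear_combination -h1
    have h5 : (r i ^ 2 - r i) * Complex.normSq s = lam := by exact_mod_cast h4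
    field_simp
    linarith
  have hlR : (0 : ℝ) < lam := by exact_mod_cast hl
  obtain ⟨α, β, hβ, hαβ, hcop, hdvd, hall, ⟨i₁, hi₁⟩, ⟨i₂, hi₂⟩⟩ :=
    real_struct hm r (lam / Complex.normSq s) (div_pos hlR hN) hquad hsum
  have hd : ((α : ℂ) - β) ≠ 0 := by
    have : (α : ℝ) - β ≠ 0 := by
      have : (β : ℝ) < α := by exact_mod_cast hαβ
      linarith
    exact_mod_cast this
  set θ := s / ((α : ℂ) - β) with hθ
  have hsθ : s = ((α : ℂ) - β) * θ := by rw [hθ]; field_simp
  have hplus : ∀ i, r i * ((α : ℝ) - β) = α → a i = α * θ := by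
    intro i hi
    have : (r i : ℂ) * ((α : ℂ) - β) = α := by exact_mod_cast hi
    rw [har i, hsθ, ← mul_assoc, this]
  have hminus : ∀ i, r i * ((α : ℝ) - β) = -β → a i = -β * θ := by
    intro i hi
    have : (r i : ℂ) * ((α : ℂ) - β) = -β := by exact_mod_cast hi
    rw [har i, hsθ, ← mul_assoc, this]
  have e1 := hplus i₁ hi₁
  have e2 := hminus i₂ hi₂
  have hθint : IsIntegral ℤ θ := by
    obtain ⟨x, y, hxy⟩ := (Nat.isCoprime_iff_coprime.2 hcop : IsCoprime (α : ℤ) (β : ℤ))
    have hxy' : (x : ℂ) * α + y * β = 1 := by exact_mod_cast hxy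
    have : θ = (x : ℂ) * a i₁ - (y : ℂ) * a i₂ := by
      rw [e1, e2]; linear_combination -θ * hxy'
    rw [this]
    exact ((isIntegral_intCast x).mul (hint i₁)).sub ((isIntegral_intCast y).mul (hint i₂))
  have hlam : (lam : ℂ) = ((α * β : ℕ) : ℂ) * (θ * (starRingEnd ℂ) θ) := by
    have h1 := heq i₁
    rw [hsθ, e1] at h1
    simp only [map_sub, map_mul, map_natCast] at h1
    push_cast
    linear_combination h1
  have hpos : 0 < α * β := Nat.mul_pos (by omega) hβ
  have hdv : ((α * β : ℕ) : ℤ) ∣ (lam : ℤ) :=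
    dvd_of_isIntegral hpos (hθint.mul (isIntegral_conj hθint)) (by exact_mod_cast hlam)
  obtain ⟨T, hT⟩ := Int.natCast_dvd_natCast.1 hdv
  refine ⟨α, β, T, θ, hβ, hαβ, hcop, hdvd, hT, hθint, ?_, hsθ, ?_, ⟨i₁, e1⟩, ⟨i₂, e2⟩⟩
  · have hne : ((α * β : ℕ) : ℂ) ≠ 0 := by exact_mod_cast hpos.ne'
    apply mul_left_cancel₀ hne
    rw [← hlam, hT]; push_cast; ring
  · intro i
    rcases hall i with h | h
    · exact Or.inl (hplus i h)
    · exact Or.inr (hminus i h)

end Pool.Agent.Lib.MP_e8b612_co
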