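import Pool.Agent.Lib.MP_e8b612_co.Defs
import Pool.Agent.Lib.MP_e8b612_co.Struct

namespace Pool.Agent.Lib.MP_e8b612_co
open Finset

variable {G : Type*} [AddCommGroup G] [Fintype G] [DecidableEq G]

/-- character sum over a finite set -/
noncomputable def chi (ψ : AddChar G ℂ) (S : Finset G) : ℂ := ∑ x ∈ S, ψ x

omit [DecidableEq G] in
lemma char_isIntegral (ψ : AddChar G ℂ) (x : G) : IsIntegral ℤ (ψ x) := by
  have h : (ψ x) ^ (Fintype.card G) = 1 := by
    rw [← AddChar.map_nsmul_eq_pow, card_nsmul_eq_zero]; simp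
  exact IsIntegral.of_pow Fintype.card_pos (by rw [h]; exact isIntegral_one)

omit [DecidableEq G] in
lemma chi_isIntegral (ψ : AddChar G ℂ) (S : Finset G) : IsIntegral ℤ (chi ψ S) :=
  IsIntegral.sum _ (fun x _ => char_isIntegral ψ x)

omit [Fintype G] [DecidableEq G] in
lemma chi_zero (S : Finset G) : chi (0 : AddChar G ℂ) S = S.card := by simp [chi]

omit [DecidableEq G] in
lemma conj_chi (ψ : AddChar G ℂ) (S : Finset G) :
    (starRingEnd ℂ) (chi ψ S) = ∑ x ∈ S, ψ (-x) := by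
  simp only [chi, map_sum, AddChar.map_neg_eq_conj]

lemma fourier (S : Finset G) (h : G) :
    ∑ ψ : AddChar G ℂ, chi ψ S * ψ (-h) = Fintype.card G * (if h ∈ S then 1 else 0) := by
  simp only [chi, Finset.sum_mul]
  rw [Finset.sum_comm]
  have : ∀ x ∈ S, ∑ ψ : AddChar G ℂ, ψ x * ψ (-h) = if x = h then (Fintype.card G : ℂ) else 0 := by
    intro x _
    simp_rw [← AddChar.map_add_eq_mul]
    rw [AddChar.sum_apply_eq_ite]
    simp [add_neg_eq_zero]
  rw [Finset.sum_congr rfl this, Finset.sum_ite_eq']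
  split_ifs <;> simp

lemma parseval (S : Finset G) :
    ∑ ψ : AddChar G ℂ, chi ψ S * (starRingEnd ℂ) (chi ψ S) = Fintype.card G * S.card := by
  simp_rw [conj_chi, Finset.mul_sum]
  rw [Finset.sum_comm, Finset.sum_congr rfl (fun h _ => fourier S h)]
  rw [Finset.sum_congr rfl (g := fun _ => (Fintype.card G : ℂ))]
  · simp [mul_comm]
  · intro x hx; simp [hx]

variable {m k lam : ℕ} {A : Fin m → Finset G}

lemma sum_others (hA : IsSEDF m k lam A) (i : Fin m) (f : G → ℂ) :
    ∑ y ∈ (univ.erase i).biUnion A, f y = (∑ j, ∑ y ∈ A j, f y) - ∑ y ∈ A i, f y := by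
  rw [Finset.sum_biUnion]
  · rw [← Finset.add_sum_erase univ _ (mem_univ i)]; ring
  · intro a _ b _ hab; exact hA.2.1 a b hab

lemma sum_union_all (hA : IsSEDF m k lam A) (f : G → ℂ) :
    ∑ y ∈ univ.biUnion A, f y = ∑ j, ∑ y ∈ A j, f y := by
  rw [Finset.sum_biUnion]
  intro a _ b _ hab; exact hA.2.1 a b hab

lemma diff_sum (hA : IsSEDF m k lam A) (i : Fin m) (f : G → ℂ) :
    ∑ x ∈ A i, ∑ y ∈ (univ.erase i).biUnion A, f (x - y) = lam * ((∑ g, f g) - f 0) := by
  rw [← Finset.sum_product']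
  rw [← Finset.sum_fiberwise_of_maps_to (t := univ) (g := fun p : G × G => p.1 - p.2)
    (fun _ _ => mem_univ _)]
  have h1 : ∀ g ∈ (univ : Finset G),
      ∑ p ∈ (A i ×ˢ (univ.erase i).biUnion A) with p.1 - p.2 = g, f (p.1 - p.2)
        = lam * f g - (if g = 0 then lam * f 0 else 0) := by
    intro g _
    rw [Finset.sum_congr rfl (g := fun _ => f g)]
    · rw [Finset.sum_const, nsmul_eq_mul]
      by_cases hg : g = 0
      · subst hg
        have : ((A i ×ˢ (univ.erase i).biUnion A).filter (fun p => p.1 - p.2 = 0)) = ∅ := by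
          rw [Finset.filter_eq_empty_iff]
          rintro ⟨x, y⟩ hp h
          simp only [mem_product, mem_biUnion, mem_erase] at hp
          obtain ⟨hx, j, ⟨hj, _⟩, hy⟩ := hp
          have hxy : x = y := sub_eq_zero.1 h
          subst hxy
          exact Finset.disjoint_left.1 (hA.2.1 i j (Ne.symm hj)) hx hy
        rw [this]; simp
      · rw [hA.2.2 i g hg]; simp [hg]
    · intro p hp; rw [(Finset.mem_filter.1 hp).2]
  rw [Finset.sum_congr rfl h1, Finset.sum_sub_distrib, Finset.sum_ite_eq', ← Finset.mul_sum]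
  simp [mul_sub]

lemma char_eq (hA : IsSEDF m k lam A) {ψ : AddChar G ℂ} (hψ : ψ ≠ 0) (i : Fin m) :
    chi ψ (A i) * (starRingEnd ℂ) ((∑ j, chi ψ (A j)) - chi ψ (A i)) = -lam := by
  have h1 := diff_sum hA i ψ
  rw [AddChar.sum_eq_ite] at h1
  simp only [hψ, if_false, AddChar.map_zero_eq_one] at h1
  have h2 : (∑ j, chi ψ (A j)) - chi ψ (A i) = chi ψ ((univ.erase i).biUnion A) :=
    (sum_others hA i ψ).symm
  rw [h2, conj_chi, chi, Finset.sum_mul_sum]
  simp_rw [← AddChar.map_add_eq_mul, ← sub_eq_add_neg]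
  rw [h1]; ring

lemma count_eq (hA : IsSEDF m k lam A) (hm : 2 < m) :
    k ^ 2 * (m - 1) = lam * (Fintype.card G - 1) := by
  have h1 := diff_sum hA ⟨0, by omega⟩ (fun _ => 1)
  rw [Finset.sum_const, sum_others hA] at h1
  simp only [sum_const, hA.1, nsmul_eq_mul, mul_one, card_univ, Fintype.card_fin] at h1
  have hn : 1 ≤ Fintype.card G := Fintype.card_pos
  have hm1 : 1 ≤ m := by omega
  have : ((k ^ 2 * (m - 1) : ℕ) : ℂ) = ((lam * (Fintype.card G - 1) : ℕ) : ℂ) := by
    push_cast [Nat.cast_sub hn, Nat.cast_sub hm1]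
    linear_combination h1
  exact_mod_cast this

lemma chi_union (hA : IsSEDF m k lam A) (ψ : AddChar G ℂ) :
    chi ψ (univ.biUnion A) = ∑ j, chi ψ (A j) := sum_union_all hA ψ

lemma card_union_all (hA : IsSEDF m k lam A) : (univ.biUnion A).card = k * m := by
  have h := chi_union hA 0
  simp only [chi_zero, hA.1, sum_const, card_univ, Fintype.card_fin, nsmul_eq_mul] at h
  have : ((univ.biUnion A).card : ℂ) = ((k * m : ℕ) : ℂ) := by push_cast; rw [h]; ring
  exact_mod_cast this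

lemma km_lt (hA : IsSEDF m k lam A) (hm : 2 < m) (hk : 1 < k) : k * m < Fintype.card G := by
  have h1 : k * m ≤ Fintype.card G := by
    rw [← card_union_all hA]; exact Finset.card_le_univ _
  rcases lt_or_eq_of_le h1 with h | h
  · exact h
  · exfalso
    have h2 := count_eq hA hm
    rw [← h] at h2
    have hkm : 1 ≤ k * m := Nat.mul_pos (by omega) (by omega)
    have hcop : Nat.Coprime (k * m - 1) (k ^ 2) := by
      apply Nat.Coprime.pow_right
      have : Nat.Coprime (k * m - 1) (k * m) := by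
        have := (Nat.coprime_self_sub_left hkm).2 (Nat.coprime_one_left (k * m))
        exact this
      exact Nat.Coprime.coprime_dvd_right (Dvd.intro _ rfl) this
    have hdvd : (k * m - 1) ∣ (m - 1) :=
      hcop.dvd_of_dvd_mul_left ⟨lam, by rw [h2]; ring⟩
    have := Nat.le_of_dvd (by omega) hdvd
    have : 2 * m ≤ k * m := Nat.mul_le_mul_right _ hk
    omega

lemma mem_pairs {m lam a b : ℕ} (hm : 2 < m) (hb : 1 ≤ b) (hab : b < a) (hc : Nat.Coprime a b)
    (hd : (a + b) ∣ (m - 2)) (hl : a * b ∣ lam) : (a, b) ∈ pairs m lam := by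
  have := Nat.le_of_dvd (by omega) hd
  simp only [pairs, mem_filter, mem_product, mem_range]
  exact ⟨⟨by omega, by omega⟩, hb, hab, hc, hd, hl⟩

/-- structure of a non-principal character with non-zero value on the union -/
lemma struct (hA : IsSEDF m k lam A) (hm : 2 < m) (hl : 0 < lam) {ψ : AddChar G ℂ} (hψ : ψ ≠ 0)
    (hs : ∑ j, chi ψ (A j) ≠ 0) :
    ∃ α β T : ℕ, ∃ θ : ℂ, (α, β) ∈ pairs m lam ∧ β < α ∧
      lam = α * β * T ∧ IsIntegral ℤ θ ∧ θ * (starRingEnd ℂ) θ = T ∧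
      ∑ j, chi ψ (A j) = ((α : ℂ) - β) * θ ∧
      (∀ i, chi ψ (A i) = α * θ ∨ chi ψ (A i) = -β * θ) ∧ (∃ i, chi ψ (A i) = α * θ) ∧
      (∃ i, chi ψ (A i) = -β * θ) := by
  obtain ⟨α, β, T, θ, h1, h2, h3, h4, h5, h6, h7, h8, h9, h10, h11⟩ :=
    char_struct hm hl (fun i => chi ψ (A i)) (fun i => chi_isIntegral ψ _) (char_eq hA hψ) hs
  exact ⟨α, β, T, θ, mem_pairs hm h1 h2 h3 h4 ⟨T, h5⟩, h2, h5, h6, h7, h8, h9, h10, h11⟩

end Pool.Agent.Lib.MP_e8b612_co
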