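import Pool.Agent.Lib.MP_e8b612_co.Defs

namespace Pool.Agent.Lib.MP_e8b612_co
open Finset

/-- necessary conditions used in the finite check -/
def Cond (m n k lam : ℕ) : Prop :=
  n ∣ bigF m lam ∧
  (∃ p ∈ pairs m lam, k * m * (n - k * m) * (p.1 * p.2) ≤ (n - 1) * lam * (p.1 - p.2) ^ 2) ∧
  (∃ p ∈ pairs m lam, lam * (p.1 - p.2) ^ 2 ≤ (n - k * m) ^ 2 * (p.1 * p.2)) ∧
  ¬ (n = 2401 ∧ m = 9 ∧ k = 240)

instance (m n k lam : ℕ) : Decidable (Cond m n k lam) := by unfold Cond; infer_instance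

def okK (m n k : ℕ) : Bool :=
  if k * m < n ∧ Nat.gcd k n = 1 ∧ (k ^ 2 * (m - 1)) % (n - 1) = 0 then
    (decide (¬ Cond m n k (k ^ 2 * (m - 1) / (n - 1))) || decide (n = 243 ∧ m = 11 ∧ k = 22))
  else true

def okU (m n U : ℕ) : Bool :=
  if (n - 1) % (U * U) = 0 then
    (List.range U).all (fun t => okK m n (t * ((n - 1) / U) / (m - 1)))
  else true

/-- integer square root by bisection -/
def bs (M : ℕ) : ℕ → ℕ → ℕ
  | 0, lo => lo
  | d + 1, lo => bif Nat.ble ((lo + 2 ^ d) * (lo + 2 ^ d)) M then bs M d (lo + 2 ^ d) else bs M d lo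

lemma bs_spec (U : ℕ) : ∀ d lo, lo ≤ U → U < lo + 2 ^ d → bs (U * U) d lo = U := by
  intro d
  induction d with
  | zero => intro lo h1 h2; simp only [bs]; omega
  | succ d ih =>
    intro lo h1 h2
    simp only [bs]
    by_cases h : lo + 2 ^ d ≤ U
    · have : Nat.ble ((lo + 2 ^ d) * (lo + 2 ^ d)) (U * U) = true := by
        rw [Nat.ble_eq]; exact Nat.mul_le_mul h h
      rw [this, cond_true]
      exact ih _ h (by rw [pow_succ] at h2; omega)
    · have : Nat.ble ((lo + 2 ^ d) * (lo + 2 ^ d)) (U * U) = false := by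
        rw [← Bool.not_eq_true, Nat.ble_eq, not_le]
        exact Nat.mul_self_lt_mul_self (by omega)
      rw [this, cond_false]
      exact ih _ h1 (by omega)

def okJ (m n j : ℕ) : Bool :=
  bif Nat.beq ((n - 1) % j) 0 then okU m n j && okU m n (bs ((n - 1) / j) 40 0) else true

def rng (m n : ℕ) : ℕ → ℕ → Bool
  | 0, lo => okJ m n lo
  | d + 1, lo => bif Nat.ble n (lo * lo * lo) then true else
      (bif rng m n d lo then rng m n d (lo + 2 ^ d) else false)

lemma rng_spec (m n : ℕ) : ∀ d lo, rng m n d lo = true → ∀ U, lo ≤ U → U < lo + 2 ^ d →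
    U * U * U < n → okJ m n U = true := by
  intro d
  induction d with
  | zero =>
    intro lo h U h1 h2 _
    have : U = lo := by omega
    rw [this]; exact h
  | succ d ih =>
    intro lo h U h1 h2 h3
    simp only [rng] at h
    have : lo * lo * lo ≤ U * U * U := Nat.mul_le_mul (Nat.mul_le_mul h1 h1) h1
    have e : Nat.ble n (lo * lo * lo) = false := by
      rw [← Bool.not_eq_true, Nat.ble_eq]; omega
    rw [e, cond_false] at h
    cases h' : rng m n d lo with
    | false => rw [h'] at h; simp at h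
    | true =>
      rw [h', cond_true] at h
      by_cases hU : U < lo + 2 ^ d
      · exact ih lo h' U h1 hU h3
      · exact ih _ h U (by omega) (by rw [pow_succ] at h2; omega) h3

lemma okU_of_rng {m n U : ℕ} (hn : n < 2 ^ 80) (h : rng m n 27 1 = true) (hN : 0 < n - 1)
    (hU0 : 0 < U) (hU : U * U ∣ n - 1) : okU m n U = true := by
  obtain ⟨e, he⟩ := hU
  have he0 : 0 < e := Nat.pos_of_mul_pos_left (he ▸ hN)
  have small : ∀ j, j * j * j < n → j < 1 + 2 ^ 27 := by
    intro j hj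
    by_contra hcon
    have h1 : 2 ^ 27 ≤ j := by omega
    have := Nat.mul_le_mul (Nat.mul_le_mul h1 h1) h1
    norm_num at this hn
    omega
  rcases le_total U e with hle | hle
  · have h3 : U * U * U < n := by
      have := Nat.mul_le_mul_left (U * U) hle
      omega
    have := rng_spec m n 27 1 h U hU0 (small U h3) h3
    simp only [okJ] at this
    have e1 : Nat.beq ((n - 1) % U) 0 = true := by
      rw [Nat.beq_eq, he, mul_assoc]; simp
    rw [e1, cond_true, Bool.and_eq_true] at this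
    exact this.1
  · have h3 : e * e * e < n := by
      have := Nat.mul_le_mul_right e (Nat.mul_le_mul hle hle)
      omega
    have := rng_spec m n 27 1 h e he0 (small e h3) h3
    simp only [okJ] at this
    have e1 : Nat.beq ((n - 1) % e) 0 = true := by
      rw [Nat.beq_eq, he]; simp
    rw [e1, cond_true, Bool.and_eq_true] at this
    have e2 : (n - 1) / e = U * U := by rw [he]; exact Nat.mul_div_cancel _ he0
    have hU40 : U < 0 + 2 ^ 40 := by
      by_contra hcon
      have h1 : 2 ^ 40 ≤ U := by omega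
      have h2 := Nat.mul_le_mul (Nat.mul_le_mul h1 h1) he0
      norm_num at h2 hn
      omega
    rw [e2, bs_spec U 40 0 (Nat.zero_le _) hU40] at this
    exact this.2

lemma exists_U {N K : ℕ} (hN : 0 < N) (h : N ∣ K ^ 2) :
    ∃ U, 0 < U ∧ U * U ∣ N ∧ N / U ∣ K := by
  set g := Nat.gcd K N with hg
  have hg0 : 0 < g := Nat.gcd_pos_of_pos_right _ hN
  obtain ⟨U, hU⟩ : g ∣ N := Nat.gcd_dvd_right _ _
  obtain ⟨V, hV⟩ : g ∣ K := Nat.gcd_dvd_left _ _
  have hU0 : 0 < U := Nat.pos_of_mul_pos_left (hU ▸ hN)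
  have hcop : Nat.Coprime V U := by
    have := Nat.coprime_div_gcd_div_gcd (m := K) (n := N) hg0
    rw [← hg] at this
    rwa [hV, hU, Nat.mul_div_cancel_left _ hg0, Nat.mul_div_cancel_left _ hg0] at this
  have h1 : U ∣ g * V ^ 2 := by
    have : g * U ∣ g * (g * V ^ 2) := by
      rw [← hU]
      have e : g * (g * V ^ 2) = K ^ 2 := by
        conv_rhs => rw [hV]
        ring
      rw [e]; exact h
    exact Nat.dvd_of_mul_dvd_mul_left hg0 this
  have h2 : U ∣ g := (Nat.Coprime.pow_right 2 hcop.symm).dvd_of_dvd_mul_right h1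
  refine ⟨U, hU0, ?_, ?_⟩
  · rw [hU]; exact Nat.mul_dvd_mul_right h2 U
  · have : N / U = g := by
      conv_lhs => rw [hU]
      exact Nat.mul_div_cancel _ hU0
    rw [this]; exact ⟨V, hV⟩

lemma of_rng {m n k lam : ℕ} (hm : 2 < m) (hk : 1 < k) (hn : n < 2 ^ 80) (h : rng m n 27 1 = true)
    (hlt : k * m < n) (hcop : Nat.Coprime k n) (hc : k ^ 2 * (m - 1) = lam * (n - 1))
    (hcond : Cond m n k lam) : n = 243 ∧ m = 11 ∧ k = 22 := by
  have hkm : 0 < k * m := Nat.mul_pos (by omega) (by omega)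
  have hN : 0 < n - 1 := by omega
  have hdv : n - 1 ∣ (k * (m - 1)) ^ 2 := ⟨lam * (m - 1), by
    rw [mul_pow, pow_two (m - 1), ← mul_assoc, hc]; ring⟩
  obtain ⟨U, hU0, hU1, t, ht⟩ := exists_U hN hdv
  have h1 := okU_of_rng hn h hN hU0 hU1
  simp only [okU] at h1
  rw [if_pos (Nat.mod_eq_zero_of_dvd hU1), List.all_eq_true] at h1
  have hUN : U ∣ n - 1 := (Dvd.intro _ rfl : U ∣ U * U).trans hU1
  have htU : t < U := by
    have e : (n - 1) / U * U = n - 1 := Nat.div_mul_cancel hUN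
    have : k * (m - 1) < n - 1 := by
      have : k * (m - 1) + k = k * m := by
        obtain ⟨m', rfl⟩ : ∃ m', m = m' + 1 := ⟨m - 1, by omega⟩
        simp [mul_add]
      omega
    rw [ht, ← e] at this
    have := lt_of_mul_lt_mul_left (a := (n - 1) / U) (by rw [e] at this ⊢; simpa [e] using this :
      (n - 1) / U * t < (n - 1) / U * U) (Nat.zero_le _)
    exact this
  have h2 := h1 t (List.mem_range.2 htU)
  have hk' : t * ((n - 1) / U) / (m - 1) = k := by
    rw [mul_comm, ← ht]; exact Nat.mul_div_cancel _ (by omega)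
  rw [hk'] at h2
  simp only [okK] at h2
  have hl : k ^ 2 * (m - 1) / (n - 1) = lam := by rw [hc]; exact Nat.mul_div_cancel _ hN
  rw [if_pos ⟨hlt, hcop, by rw [hc]; simp⟩, hl] at h2
  simpa [hcond] using h2

def top (m p q r : ℕ) (L : List ℕ) (F H : ℕ) : Bool :=
  L.all (fun e => (List.range (F + 1)).all (fun f => (List.range (H + 1)).all (fun g =>
    decide (p ^ e * q ^ f * r ^ g < 2 ^ 80) && rng m (p ^ e * q ^ f * r ^ g) 27 1)))

lemma of_top {m n k lam p q r E F H R : ℕ} (hp : p.Prime) (hq : q.Prime) (hr : r.Prime)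
    (hm : 2 < m) (hk : 1 < k)
    (h : ∀ e ≤ E, ∃ L, e ∈ L ∧ top m p q r L F H = true)
    (hF : bigF m 0 = p ^ E * q ^ F * r ^ H * R)
    (hR : Nat.Coprime (m * (m - 2)) R) (hn0 : n ∣ bigF m 0)
    (hpr : ∀ r, r.Prime → r ∣ n → r ∣ m * (m - 2))
    (hlt : k * m < n) (hcop : Nat.Coprime k n) (hc : k ^ 2 * (m - 1) = lam * (n - 1))
    (hcond : Cond m n k lam) : n = 243 ∧ m = 11 ∧ k = 22 := by
  have hnR : Nat.Coprime n R := by
    apply Nat.coprime_of_dvd
    intro r hr h1 h2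
    exact hr.one_lt.ne' (Nat.eq_one_of_dvd_coprimes hR (hpr r hr h1) h2)
  rw [hF] at hn0
  obtain ⟨ab, c, hab, hc', habc⟩ := (Nat.dvd_mul).1 (hnR.dvd_of_dvd_mul_right hn0)
  obtain ⟨a, b, ha, hb, rfl⟩ := (Nat.dvd_mul).1 hab
  obtain ⟨e, he, rfl⟩ := (Nat.dvd_prime_pow hp).1 ha
  obtain ⟨f, hf, rfl⟩ := (Nat.dvd_prime_pow hq).1 hb
  obtain ⟨g, hg, rfl⟩ := (Nat.dvd_prime_pow hr).1 hc'
  obtain ⟨L, hL, h⟩ := h e he
  simp only [top, List.all_eq_true, List.mem_range, Bool.and_eq_true, decide_eq_true_eq] at h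
  obtain ⟨h1, h2⟩ := h e hL f (by omega) g (by omega)
  rw [habc] at h1 h2
  exact of_rng hm hk h1 h2 hlt hcop hc hcond

lemma top5 : top 5 3 5 2 (List.range 4) 1 0 = true := by decide +kernel
lemma top6 : top 6 2 3 2 (List.range 9) 1 0 = true := by decide +kernel
lemma top7 : top 7 5 7 2 (List.range 6) 1 0 = true := by decide +kernel
lemma top8 : top 8 2 3 2 (List.range 8) 6 0 = true := by decide +kernel
lemma top9 : top 9 3 7 2 (List.range 5) 7 0 = true := by decide +kernel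
lemma top10 : top 10 2 5 2 (List.range 25) 1 0 = true := by decide +kernel
lemma top11 : top 11 3 11 2 (List.range 19) 1 0 = true := by decide +kernel

lemma F5 : bigF 5 0 = 3 ^ 3 * 5 ^ 1 * 2 ^ 0 * 2 := by decide +kernel
lemma F6 : bigF 6 0 = 2 ^ 8 * 3 ^ 1 * 2 ^ 0 * 1 := by decide +kernel
lemma F7 : bigF 7 0 = 5 ^ 5 * 7 ^ 1 * 2 ^ 0 * 24 := by decide +kernel
lemma F8 : bigF 8 0 = 2 ^ 7 * 3 ^ 6 * 2 ^ 0 * 5 := by decide +kernel
lemma F9 : bigF 9 0 = 3 ^ 4 * 7 ^ 7 * 2 ^ 0 * 80 := by decide +kernel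
lemma F10 : bigF 10 0 = 2 ^ 24 * 5 ^ 1 * 2 ^ 0 * 63 := by decide +kernel
lemma F11 : bigF 11 0 = 3 ^ 18 * 11 ^ 1 * 2 ^ 0 * 4480 := by decide +kernel

theorem finite_check {m n k lam : ℕ} (hm : 5 ≤ m) (hm' : m ≤ 11) (hk : 1 < k) (hn0 : n ∣ bigF m 0)
    (hpr : ∀ r, r.Prime → r ∣ n → r ∣ m * (m - 2))
    (hlt : k * m < n) (hcop : Nat.Coprime k n) (hc : k ^ 2 * (m - 1) = lam * (n - 1))
    (hcond : Cond m n k lam) : n = 243 ∧ m = 11 ∧ k = 22 := by
  have p2 := Nat.prime_two
  have p3 := Nat.prime_three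
  have p5 := Nat.prime_five
  have p7 : Nat.Prime 7 := by norm_num
  have p11 : Nat.Prime 11 := by norm_num
  interval_cases m
  · exact of_top p3 p5 p2 (by norm_num) hk (fun e he => ⟨_, List.mem_range.2 (by omega), top5⟩) F5
      (by norm_num) hn0 hpr hlt hcop hc hcond
  · exact of_top p2 p3 p2 (by norm_num) hk (fun e he => ⟨_, List.mem_range.2 (by omega), top6⟩) F6
      (by norm_num) hn0 hpr hlt hcop hc hcond
  · exact of_top p5 p7 p2 (by norm_num) hk (fun e he => ⟨_, List.mem_range.2 (by omega), top7⟩) F7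
      (by norm_num) hn0 hpr hlt hcop hc hcond
  · exact of_top p2 p3 p2 (by norm_num) hk (fun e he => ⟨_, List.mem_range.2 (by omega), top8⟩) F8
      (by norm_num) hn0 hpr hlt hcop hc hcond
  · exact of_top p3 p7 p2 (by norm_num) hk (fun e he => ⟨_, List.mem_range.2 (by omega), top9⟩) F9
      (by norm_num) hn0 hpr hlt hcop hc hcond
  · exact of_top p2 p5 p2 (by norm_num) hk (fun e he => ⟨_, List.mem_range.2 (by omega), top10⟩) F10
      (by norm_num) hn0 hpr hlt hcop hc hcond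
  · exact of_top p3 p11 p2 (by norm_num) hk (fun e he => ⟨_, List.mem_range.2 (by omega), top11⟩) F11
      (by norm_num) hn0 hpr hlt hcop hc hcond

end Pool.Agent.Lib.MP_e8b612_co
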