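import Pool.Agent.Lib.MP_e8b612_co.CycPoly

namespace Pool.Agent.Lib.MP_e8b612_co
open Polynomial Finset

/-- the shape of the squared moduli at one non-principal character -/
def Shape (m lam : ℕ) (N : Fin m → ℕ) : Prop :=
  (∀ j, N j = lam) ∨ ∃ u v : ℕ, u ≠ v ∧ u * v = lam ^ 2 ∧ (∀ j, N j = u ∨ N j = v) ∧
    (∃ j, N j = u) ∧ (∃ j, N j = v) ∧
    ∀ j, 2 ≤ (univ.filter (fun i => N i = N j)).card ∧
      N j * (univ.filter (fun i => N i = N j)).card + lam * (univ.filter (fun i => N i = N j)).card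
        + lam = lam * m + N j

lemma level_struct {m lam : ℕ} (hm : 2 < m) (hl : 0 < lam) (x : Fin m → ℂ)
    (hint : ∀ i, IsIntegral ℤ (x i))
    (heq : ∀ i, x i * (starRingEnd ℂ) ((∑ j, x j) - x i) = -lam) :
    ∃ N : Fin m → ℕ, (∀ j, x j * (starRingEnd ℂ) (x j) = N j) ∧ Shape m lam N := by
  classical
  by_cases hs : ∑ j, x j = 0
  · refine ⟨fun _ => lam, fun j => ?_, Or.inl (fun _ => rfl)⟩
    have := heq j
    rw [hs, zero_sub, map_neg] at this
    linear_combination -this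
  obtain ⟨α, β, T, θ, hβ, hαβ, -, -, hT, -, hθ, hsum, hall, ⟨i₁, e1⟩, ⟨i₂, e2⟩⟩ :=
    char_struct hm hl x hint heq hs
  have hT0 : 0 < T := by
    rcases Nat.eq_zero_or_pos T with h | h
    · rw [h] at hT; omega
    · exact h
  have hθ0 : θ ≠ 0 := by
    rintro rfl
    have : (T : ℂ) = 0 := by rw [← hθ]; simp
    have : T = 0 := by exact_mod_cast this
    omega
  have hne : ¬ (-(β : ℂ) * θ = α * θ) := by
    intro h
    have h1 : ((α + β : ℕ) : ℂ) * θ = 0 := by push_cast; linear_combination -h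
    rcases mul_eq_zero.1 h1 with h2 | h2
    · have : α + β = 0 := by exact_mod_cast h2
      omega
    · exact hθ0 h2
  have huv : α ^ 2 * T ≠ β ^ 2 * T := by
    intro h
    have h1 := Nat.eq_of_mul_eq_mul_right hT0 h
    nlinarith
  set S := univ.filter (fun i => x i = α * θ) with hS
  set S' := univ.filter (fun i => ¬ x i = α * θ) with hS'
  have hcard : S.card + S'.card = m := by
    rw [hS, hS', Finset.card_filter_add_card_filter_not]; simp
  have hrel : S.card * α + β = α + S'.card * β := by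
    have h0 := Finset.sum_filter_add_sum_filter_not univ (fun i => x i = α * θ) x
    have h1 : ∑ i ∈ S, x i = S.card * (α * θ) := by
      rw [Finset.sum_congr rfl (g := fun _ => α * θ)]
      · simp
      · intro i hi; exact (Finset.mem_filter.1 hi).2
    have h2 : ∑ i ∈ S', x i = S'.card * (-β * θ) := by
      rw [Finset.sum_congr rfl (g := fun _ => -β * θ)]
      · rw [Finset.sum_const, nsmul_eq_mul]
      · intro i hi
        exact (hall i).resolve_left (Finset.mem_filter.1 hi).2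
    rw [← hS, ← hS', h1, h2, hsum] at h0
    have h3 : ((S.card * α + β : ℕ) : ℂ) * θ = ((α + S'.card * β : ℕ) : ℂ) * θ := by
      push_cast; linear_combination h0
    exact_mod_cast mul_right_cancel₀ hθ0 h3
  have hP : 1 ≤ S.card := Finset.card_pos.2 ⟨i₁, by simp [hS, e1]⟩
  have hQ : 1 ≤ S'.card := Finset.card_pos.2 ⟨i₂, by simp only [hS', mem_filter, mem_univ, e2]; exact ⟨trivial, hne⟩⟩
  have hP2 : 2 ≤ S.card := by
    by_contra h
    have h1 : S.card = 1 := by omega
    have h2 : 2 ≤ S'.card := by omega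
    rw [h1] at hrel
    nlinarith
  have hQ2 : 2 ≤ S'.card := by
    by_contra h
    have h1 : S'.card = 1 := by omega
    rw [h1] at hrel
    nlinarith
  set N : Fin m → ℕ := fun j => if x j = α * θ then α ^ 2 * T else β ^ 2 * T with hN
  refine ⟨N, fun j => ?_, Or.inr ⟨α ^ 2 * T, β ^ 2 * T, huv, by rw [hT]; ring, fun j => ?_,
    ⟨i₁, by simp [hN, e1]⟩, ⟨i₂, by simp only [hN, e2, if_neg hne]⟩, fun j => ?_⟩⟩
  · simp only [hN]
    split_ifs with h
    · rw [h, map_mul, map_natCast]; push_cast; rw [← hθ]; ring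
    · rw [(hall j).resolve_left h, map_mul, map_neg, map_natCast]; push_cast; rw [← hθ]; ring
  · simp only [hN]
    split_ifs
    · exact Or.inl rfl
    · exact Or.inr rfl
  · by_cases h : x j = α * θ
    · have hj : N j = α ^ 2 * T := by simp [hN, h]
      have hc : univ.filter (fun i => N i = N j) = S := by
        ext i
        simp only [mem_filter, mem_univ, true_and, hS, hN]
        split_ifs with h'
        · simp [h']
        · simp only [h', iff_false]; exact fun hh => huv hh.symm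
      rw [hc, hj, hT]
      refine ⟨hP2, ?_⟩
      have : α * T * (S.card * α + β) = α * T * (α + S'.card * β) := by rw [hrel]
      have h9 : α * β * T * m = α * β * T * (S.card + S'.card) := by rw [hcard]
      linarith
    · have hj : N j = β ^ 2 * T := by simp [hN, h]
      have hc : univ.filter (fun i => N i = N j) = S' := by
        ext i
        simp only [mem_filter, mem_univ, true_and, hS', hN]
        split_ifs with h'
        · simp only [h', not_true, iff_false]; exact huv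
        · simp [h']
      rw [hc, hj, hT]
      refine ⟨hQ2, ?_⟩
      have : β * T * (S.card * α + β) = β * T * (α + S'.card * β) := by rw [hrel]
      have h9 : α * β * T * m = α * β * T * (S.card + S'.card) := by rw [hcard]
      linarith

lemma Shape.exists_mul {m lam : ℕ} (hm : 2 < m) {N : Fin m → ℕ} (h : Shape m lam N) :
    ∃ i j, N i * N j = lam ^ 2 := by
  rcases h with h | ⟨u, v, -, huv, -, ⟨i, hi⟩, ⟨j, hj⟩, -⟩
  · exact ⟨⟨0, by omega⟩, ⟨0, by omega⟩, by rw [h, pow_two]⟩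
  · exact ⟨i, j, by rw [hi, hj, huv]⟩

/-- the class-swapping argument at the prime 2 -/
lemma swap_contra {m lam : ℕ} {N N' M : Fin m → ℕ} (h : Shape m lam N) (h' : Shape m lam N')
    (h4 : 4 ∣ lam) (b : ℕ) (hM : ∀ j, N' j = 4 * M j)
    (hpar : ∀ j, M j % 2 = (b + if 4 ∣ N j then 0 else 1) % 2) (j0 : Fin m) : 4 ∣ N j0 := by
  by_contra hj0
  rcases h with h | ⟨u, v, -, huv, hall, ⟨i1, hi1⟩, ⟨i2, hi2⟩, hcl⟩
  · exact hj0 (h j0 ▸ h4)
  have h16 : 16 ∣ u * v := by
    obtain ⟨c, rfl⟩ := h4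
    rw [huv]; exact ⟨c ^ 2, by ring⟩
  have aux : ∀ a b : ℕ, 16 ∣ a * b → ¬ 4 ∣ a → 4 ∣ b := by
    intro a b hab ha
    by_contra hb
    have h1 : a % 4 = 1 ∨ a % 4 = 2 ∨ a % 4 = 3 := by omega
    have h2 : b % 4 = 1 ∨ b % 4 = 2 ∨ b % 4 = 3 := by omega
    have h3 : (a * b) % 8 = 0 := by omega
    have h5 : a % 8 < 8 := Nat.mod_lt _ (by norm_num)
    have h6 : b % 8 < 8 := Nat.mod_lt _ (by norm_num)
    rw [Nat.mul_mod] at h3
    have h7 : a % 4 = (a % 8) % 4 := by omega
    have h8 : b % 4 = (b % 8) % 4 := by omega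
    generalize a % 8 = a' at *
    generalize b % 8 = b' at *
    interval_cases a' <;> interval_cases b' <;> omega
  have hex : ∃ j1, 4 ∣ N j1 := by
    rcases hall j0 with e | e
    · exact ⟨i2, hi2 ▸ aux u v h16 (e ▸ hj0)⟩
    · exact ⟨i1, hi1 ▸ aux v u (mul_comm u v ▸ h16) (e ▸ hj0)⟩
  obtain ⟨j1, hj1⟩ := hex
  have hcls : ∀ i j, (4 ∣ N i ↔ 4 ∣ N j) → N i = N j := by
    intro i j hij
    by_contra hne
    have hall' : ∀ l, N l = N i ∨ N l = N j := by
      intro l
      rcases hall i with a | a <;> rcases hall j with b | b <;> rcases hall l with c | c <;> omega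
    rcases hall' j0 with a | a <;> rcases hall' j1 with b | b <;>
      simp only [a, b] at hj0 hj1 <;> tauto
  have hpar' : ∀ i j, M i % 2 = M j % 2 ↔ (4 ∣ N i ↔ 4 ∣ N j) := by
    intro i j
    rw [hpar i, hpar j]
    by_cases a : 4 ∣ N i <;> by_cases b : 4 ∣ N j <;> simp only [a, b, if_true, if_false] <;>
      simp <;> omega
  have h01 : M j0 % 2 ≠ M j1 % 2 := fun hh => hj0 (((hpar' j0 j1).1 hh).2 hj1)
  rcases h' with h' | ⟨u', v', -, -, hall', -, -, hcl'⟩
  · apply h01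
    have a := hM j0
    have b := hM j1
    rw [h'] at a b
    have : M j0 = M j1 := by omega
    rw [this]
  have hsame : univ.filter (fun i => N' i = N' j0) = univ.filter (fun i => N i = N j0) := by
    ext i
    simp only [mem_filter, mem_univ, true_and]
    constructor
    · intro hh
      apply hcls
      rw [← hpar']
      have : M i = M j0 := by have := hM i; have := hM j0; omega
      rw [this]
    · intro hh
      have h1 : M i % 2 = M j0 % 2 := (hpar' i j0).2 (by rw [hh])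
      have a := hM i
      have b := hM j0
      have c := hM j1
      rcases hall' i with a' | a' <;> rcases hall' j0 with b' | b' <;>
        rcases hall' j1 with c' | c' <;> omega
  obtain ⟨hc2, e1⟩ := hcl j0
  obtain ⟨-, e2⟩ := hcl' j0
  rw [hsame] at e2
  obtain ⟨c, hc⟩ := Nat.exists_eq_add_of_le hc2
  rw [hc] at e1 e2
  have e3 : N j0 * (c + 1) = N' j0 * (c + 1) := by nlinarith
  have e4 := Nat.eq_of_mul_eq_mul_right (Nat.succ_pos c) e3
  exact hj0 ⟨M j0, by rw [e4, hM]⟩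

lemma map_X_pow_sub {p : ℕ} (hp : p.Prime) (t : ℕ) :
    (X ^ (p ^ t) - 1 : ℤ[X]).map (Int.castRingHom (ZMod p)) = (X - C 1) ^ (p ^ t) := by
  have := Fact.mk hp
  rw [sub_pow_char_pow]; simp

lemma map_X_pow_add (t : ℕ) :
    (X ^ (2 ^ t) + 1 : ℤ[X]).map (Int.castRingHom (ZMod 2)) = (X - C 1) ^ (2 ^ t) := by
  rw [sub_pow_char_pow]
  simp [CharTwo.sub_eq_add]

lemma step_two {m s k lam : ℕ} (hm : 2 < m) (hl : 0 < lam) (h4 : 4 ∣ lam) (F : Fin m → ℤ[X])
    (hF : ∀ j, (F j).eval 1 = (2 * k : ℕ))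
    (hE : ∀ η : ℂ, η ^ (2 ^ (s + 1)) = 1 → η ≠ 1 → ∀ j,
      aeval η (F j) * (starRingEnd ℂ) ((∑ i, aeval η (F i)) - aeval η (F j)) = -lam)
    {ζ : ℂ} (hζ : IsPrimitiveRoot ζ (2 ^ (s + 1))) {N : Fin m → ℕ}
    (hN : ∀ j, aeval ζ (F j) * (starRingEnd ℂ) (aeval ζ (F j)) = N j) (hS : Shape m lam N)
    (j0 : Fin m) : 4 ∣ N j0 := by
  have hp := Nat.prime_two
  have hNz : ∀ j, aeval ζ (F j) * (starRingEnd ℂ) (aeval ζ (F j)) = ((N j : ℤ) : ℂ) := by
    intro j; rw [hN]; simp
  have h2 : ∀ j, ((2 : ℕ) : ℤ) ^ 1 ∣ (N j : ℤ) := by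
    intro j
    have h1 := norm_res hp hζ (F j) (hNz j)
    rw [hF] at h1
    have h3 : ((2 : ℕ) : ℤ) ∣ (((2 * k : ℕ) : ℤ)) ^ 2 := ⟨2 * k ^ 2, by push_cast; ring⟩
    rw [pow_one]
    simpa using dvd_add h1 h3
  have to4 : ∀ j, ((2 : ℕ) : ℤ) ^ (1 + 1) ∣ (N j : ℤ) → 4 ∣ N j := by
    intro j h; exact_mod_cast h
  rcases s with _ | t
  · exact to4 _ (upper hp hζ (F j0) (hNz j0) (D := 1)
      (lower hp hζ (F j0) (hNz j0) (h2 j0) (by norm_num) (by norm_num)) (by norm_num) (by norm_num))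
  have hζ2 : IsPrimitiveRoot (ζ ^ 2) (2 ^ (t + 1)) :=
    hζ.pow (pow_pos two_pos _) (by ring)
  have hne : ζ ^ 2 ≠ 1 := hζ2.ne_one (Nat.one_lt_pow (Nat.succ_ne_zero t) (by norm_num))
  have hi2 := hζ2.isIntegral (pow_pos two_pos _)
  obtain ⟨N', hN', hS'⟩ := level_struct hm hl (fun j => aeval (ζ ^ 2) (F j))
    (fun j => aeval_intg _ hi2)
    (hE (ζ ^ 2) (by rw [pow_succ _ (t + 1), pow_mul, hζ2.pow_eq_one, one_pow]) hne)
  have hm1 : (ζ ^ 2) ^ (2 ^ t) = -1 := by
    have : IsPrimitiveRoot ((ζ ^ 2) ^ (2 ^ t)) 2 := hζ2.pow (pow_pos two_pos _) (by ring)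
    exact this.eq_neg_one_of_two_right
  have key : ∀ j, ∃ W : ℤ[X], aeval (ζ ^ 2) (F j) = 2 * aeval (ζ ^ 2) W ∧
      (W.eval 1) % 2 = (k + if 4 ∣ N j then 0 else 1) % 2 := by
    intro j
    by_cases hj : 4 ∣ N j
    · have h5 : ((2 : ℕ) : ℤ) ^ 2 ∣ (N j : ℤ) := by exact_mod_cast hj
      have h6 := lower hp hζ (F j) (hNz j) (D := 2 ^ (t + 1)) h5 (by norm_num) (by norm_num)
      rw [← map_X_pow_sub hp] at h6
      obtain ⟨U, W, h⟩ := lift_dvd _ _ h6
      refine ⟨W, ?_, ?_⟩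
      · rw [h]; simp [hζ2.pow_eq_one, map_ofNat]
      · have h7 := hF j
        rw [h] at h7
        simp at h7
        simp [hj, h7]
    · have h6 := lower hp hζ (F j) (hNz j) (D := 2 ^ t) (h2 j)
        (by rw [pow_succ]; omega) (by rw [pow_succ]; omega)
      rw [← map_X_pow_add] at h6
      obtain ⟨U, W, h⟩ := lift_dvd _ _ h6
      refine ⟨W, ?_, ?_⟩
      · rw [h]; simp [hm1, map_ofNat]
      · have h7 := hF j
        rw [h] at h7
        simp at h7
        have hU : ¬ (2 : ℤ) ∣ U.eval 1 := by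
          intro hU
          apply hj
          refine to4 _ (upper hp hζ (F j) (hNz j) (D := 2 ^ t + 1) ?_ ?_ ?_)
          · rw [h, Polynomial.map_add, Polynomial.map_mul, map_X_pow_add, pow_succ]
            apply dvd_add
            · apply mul_dvd_mul_left
              rw [dvd_iff_isRoot, IsRoot.def, eval_map, eval₂_at_one]
              simpa using (ZMod.intCast_zmod_eq_zero_iff_dvd _ 2).2 hU
            · have : (C ((2 : ℕ) : ℤ) * W).map (Int.castRingHom (ZMod 2)) = 0 := by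
                rw [Polynomial.map_mul, map_C]
                have : (Int.castRingHom (ZMod 2)) ((2 : ℕ) : ℤ) = 0 := by decide
                rw [this]; simp
              rw [this]; exact dvd_zero _
          · have : 0 < 2 ^ t := pow_pos two_pos _
            rw [pow_succ]; omega
          · rw [pow_succ]; omega
        simp only [hj, if_false]
        omega
  have key2 : ∀ j, ∃ M : ℕ, N' j = 4 * M ∧ M % 2 = (k + if 4 ∣ N j then 0 else 1) % 2 := by
    intro j
    obtain ⟨W, hW, hpar⟩ := key j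
    have h5 := hN' j
    simp only [hW, map_mul, map_ofNat] at h5
    have hint := (aeval_intg W hi2).mul (isIntegral_conj (aeval_intg W hi2))
    obtain ⟨c, hc⟩ := dvd_of_isIntegral (a := N' j) (d := 4) (by norm_num) hint
      (by push_cast; linear_combination -h5)
    have hc0 : 0 ≤ c := by
      have : (0 : ℤ) ≤ N' j := Int.natCast_nonneg _
      push_cast at hc
      omega
    obtain ⟨M, rfl⟩ := Int.eq_ofNat_of_zero_le hc0
    have hM : N' j = 4 * M := by exact_mod_cast hc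
    refine ⟨M, hM, ?_⟩
    have h6 : aeval (ζ ^ 2) W * (starRingEnd ℂ) (aeval (ζ ^ 2) W) = ((M : ℤ) : ℂ) := by
      rw [hM] at h5
      push_cast at h5 ⊢
      linear_combination h5 / 4
    have h7 := norm_res hp hζ2 W h6
    have h8 : (2 : ℤ) ∣ (W.eval 1) ^ 2 - W.eval 1 := by
      have := Int.even_mul_pred_self (W.eval 1)
      rw [even_iff_two_dvd] at this
      have e : (W.eval 1) ^ 2 - W.eval 1 = W.eval 1 * (W.eval 1 - 1) := by ring
      rw [e]; exact this
    push_cast at h7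
    split_ifs at hpar ⊢ <;> omega
  choose M hM1 hM2 using key2
  exact swap_contra hS hS' h4 k hM1 hM2 j0

lemma step {p m s k lam : ℕ} (hp : p.Prime) (hm : 2 < m) (hl : 0 < lam) (h4 : p ^ 2 ∣ lam)
    (F : Fin m → ℤ[X]) (hF : ∀ j, (F j).eval 1 = (p * k : ℕ))
    (hE : ∀ η : ℂ, η ^ (p ^ (s + 1)) = 1 → η ≠ 1 → ∀ j,
      aeval η (F j) * (starRingEnd ℂ) ((∑ i, aeval η (F i)) - aeval η (F j)) = -lam)
    (j : Fin m) : ∃ U W : ℤ[X], F j = (X ^ (p ^ s) - 1) * U + C (p : ℤ) * W := by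
  have hq : 0 < p ^ (s + 1) := pow_pos hp.pos _
  have hζ := Complex.isPrimitiveRoot_exp (p ^ (s + 1)) hq.ne'
  set ζ := Complex.exp (2 * Real.pi * Complex.I / (p ^ (s + 1) : ℕ))
  have hne : ζ ≠ 1 := hζ.ne_one (Nat.one_lt_pow (Nat.succ_ne_zero s) hp.one_lt)
  obtain ⟨N, hN, hS⟩ := level_struct hm hl (fun j => aeval ζ (F j))
    (fun j => aeval_intg _ (hζ.isIntegral hq)) (hE ζ hζ.pow_eq_one hne)
  have hNz : aeval ζ (F j) * (starRingEnd ℂ) (aeval ζ (F j)) = ((N j : ℤ) : ℂ) := by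
    rw [hN]; simp
  apply lift_dvd
  rw [map_X_pow_sub hp]
  rcases hp.eq_two_or_odd' with rfl | hodd
  · have h5 := step_two hm hl h4 F hF hE hζ hN hS j
    exact lower hp hζ (F j) hNz (e := 2) (by exact_mod_cast h5) (by norm_num) (by norm_num)
  · have h3 : 2 ≤ p - 1 := by
      have := hp.two_le
      obtain ⟨r, hr⟩ := hodd
      omega
    have h1 := norm_res hp hζ (F j) hNz
    rw [hF] at h1
    have h2 : (p : ℤ) ∣ (((p * k : ℕ) : ℤ)) ^ 2 := ⟨p * k ^ 2, by push_cast; ring⟩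
    have h6 := Nat.mul_le_mul_left (p ^ s) h3
    refine lower hp hζ (F j) hNz (e := 1) ?_ (by omega) (by omega)
    rw [pow_one]
    simpa using dvd_add h1 h2

lemma final_step {p m s k lam N0 : ℕ} (hp : p.Prime) (hm : 2 < m) (hl : 0 < lam)
    (hN0 : p ^ (s + 1) ∣ N0 + 1) (hc : k ^ 2 * (m - 1) = lam * N0)
    (F : Fin m → ℤ[X]) (hF : ∀ j, (F j).eval 1 = k)
    (hE : ∀ η : ℂ, η ^ (p ^ (s + 1)) = 1 → η ≠ 1 → ∀ j,
      aeval η (F j) * (starRingEnd ℂ) ((∑ i, aeval η (F i)) - aeval η (F j)) = -lam) :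
    p ^ (s + 1) ∣ k ^ 4 * (m * (m - 2)) := by
  have hq : 0 < p ^ (s + 1) := pow_pos hp.pos _
  have hω := Complex.isPrimitiveRoot_exp p hp.ne_zero
  set ω := Complex.exp (2 * Real.pi * Complex.I / p)
  have hne : ω ≠ 1 := hω.ne_one hp.one_lt
  have hωq : ω ^ (p ^ (s + 1)) = 1 := by rw [pow_succ', pow_mul, hω.pow_eq_one, one_pow]
  obtain ⟨N, hN, hS⟩ := level_struct hm hl (fun j => aeval ω (F j))
    (fun j => aeval_intg _ (hω.isIntegral hp.pos)) (hE ω hωq hne)
  have hR : ∀ j, ∀ η : ℂ, η ^ (p ^ (s + 1)) = 1 →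
      aeval η (F j * (F j).comp (X ^ (p ^ (s + 1) - 1)))
        = aeval η (F j) * (starRingEnd ℂ) (aeval η (F j)) := by
    intro j η hη
    rw [map_mul, aeval_comp, map_pow, aeval_X, ← conj_root hq hη]
    congr 1
    exact (Polynomial.aeval_algHom_apply (starRingEnd ℂ).toIntAlgHom η (F j))
  have hcong : ∀ j, (p : ℤ) ^ (s + 1) ∣ (k : ℤ) ^ 2 - N j := by
    intro j
    have := rat_congr hp hω.pow_eq_one s (F j * (F j).comp (X ^ (p ^ (s + 1) - 1))) (by
      intro η hη
      by_cases h1 : η = 1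
      · subst h1
        exact ⟨eval 1 (F j * (F j).comp (X ^ (p ^ (s + 1) - 1))), by
          rw [← map_one (algebraMap ℤ ℂ), aeval_algebraMap_apply_eq_algebraMap_eval]; simp⟩
      · obtain ⟨N', hN', -⟩ := level_struct hm hl (fun j => aeval η (F j))
          (fun j => aeval_intg _ (root_intg hq hη)) (hE η hη h1)
        exact ⟨N' j, by rw [hR j η hη, hN']; simp⟩) hne (N j) (by rw [hR j ω hωq, hN]; simp)
    simpa [eval_comp, hF, pow_two] using this
  obtain ⟨i, j, hij⟩ := hS.exists_mul hm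
  obtain ⟨M, rfl⟩ : ∃ M, m = M + 2 := ⟨m - 2, by omega⟩
  have hc' : (k : ℤ) ^ 2 * (M + 1) = lam * N0 := by exact_mod_cast hc
  have hij' : (N i : ℤ) * N j = (lam : ℤ) ^ 2 := by exact_mod_cast hij
  have hN0' : (p : ℤ) ^ (s + 1) ∣ (N0 : ℤ) + 1 := by exact_mod_cast hN0
  have : (p : ℤ) ^ (s + 1) ∣ (k : ℤ) ^ 4 * ((M + 2) * M) := by
    have e : (k : ℤ) ^ 4 * ((M + 2) * M) = (lam ^ 2 * (N0 - 1)) * (N0 + 1)
        - (k ^ 2 * ((k : ℤ) ^ 2 - N i) + N i * ((k : ℤ) ^ 2 - N j)) := by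
      linear_combination (k ^ 2 * (M + 1) + lam * N0 : ℤ) * hc' - hij'
    rw [e]
    exact dvd_sub (Dvd.dvd.mul_left hN0' _)
      (dvd_add (Dvd.dvd.mul_left (hcong i) _) (Dvd.dvd.mul_left (hcong j) _))
  simp only [Nat.add_sub_cancel]
  exact_mod_cast this

theorem descent {p m N0 : ℕ} (hp : p.Prime) (hm : 2 < m) : ∀ (s k lam : ℕ) (F : Fin m → ℤ[X]),
    0 < lam → p ^ s ∣ N0 + 1 → k ^ 2 * (m - 1) = lam * N0 → (∀ j, (F j).eval 1 = k) →
    (∀ η : ℂ, η ^ (p ^ s) = 1 → η ≠ 1 → ∀ j,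
      aeval η (F j) * (starRingEnd ℂ) ((∑ i, aeval η (F i)) - aeval η (F j)) = -lam) →
    p ^ s ∣ k * (m * (m - 2)) := by
  intro s
  induction s with
  | zero => intros; simp
  | succ s ih =>
    intro k lam F hl hN0 hc hF hE
    by_cases hpk : p ∣ k
    · obtain ⟨k', rfl⟩ := hpk
      have hpN : ¬ p ∣ N0 := by
        intro h
        have h1 : p ∣ N0 + 1 := (dvd_pow_self p (Nat.succ_ne_zero s)).trans hN0
        exact hp.not_dvd_one ((Nat.dvd_add_right h).1 h1)
      have h4 : p ^ 2 ∣ lam := by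
        have h1 : p ^ 2 ∣ lam * N0 := ⟨k' ^ 2 * (m - 1), by rw [← hc]; ring⟩
        exact (Nat.Coprime.pow_left 2 ((Nat.Prime.coprime_iff_not_dvd hp).2 hpN)).dvd_of_dvd_mul_right h1
      choose U W hUW using step hp hm hl h4 F hF hE
      obtain ⟨lam', rfl⟩ := h4
      have hp0 : (p : ℂ) ≠ 0 := by exact_mod_cast hp.ne_zero
      have := ih k' lam' W (Nat.pos_of_mul_pos_left hl) ((pow_dvd_pow p (Nat.le_succ s)).trans hN0)
        (by
          apply Nat.eq_of_mul_eq_mul_left (pow_pos hp.pos 2)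
          rw [← mul_assoc, ← mul_assoc, ← hc]; ring)
        (by
          intro j
          have h1 := hF j
          rw [hUW] at h1
          simp at h1
          exact h1.resolve_right hp.ne_zero)
        (by
          intro η hη hη1 j
          have h1 : ∀ i, aeval η (F i) = p * aeval η (W i) := by
            intro i; rw [hUW]; simp [hη]
          have h2 := hE η (by rw [pow_succ, pow_mul, hη, one_pow]) hη1 j
          simp only [h1, ← Finset.mul_sum, ← mul_sub, map_mul, map_natCast] at h2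
          apply mul_left_cancel₀ (pow_ne_zero 2 hp0)
          push_cast at h2
          linear_combination h2)
      rw [pow_succ', mul_assoc]
      exact Nat.mul_dvd_mul_left _ this
    · have h1 := final_step hp hm hl hN0 hc F hF hE
      have h2 : Nat.Coprime (p ^ (s + 1)) (k ^ 4) :=
        Nat.Coprime.pow _ _ ((Nat.Prime.coprime_iff_not_dvd hp).2 hpk)
      exact (h2.dvd_of_dvd_mul_left h1).mul_left _

end Pool.Agent.Lib.MP_e8b612_co
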