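import Pool.Agent.Lib.MP_e8b612_co.Basic

namespace Pool.Agent.Lib.MP_e8b612_co
open Finset

variable {G : Type*} [AddCommGroup G] [Fintype G] [DecidableEq G]

/-- evaluation of the integral group ring at a character -/
noncomputable def ev (ψ : AddChar G ℂ) : AddMonoidAlgebra ℤ G →ₐ[ℤ] ℂ :=
  AddMonoidAlgebra.lift ℤ ℂ G ψ.toMonoidHom

/-- a finite set as an element of the group ring -/
noncomputable def ind (S : Finset G) : AddMonoidAlgebra ℤ G := ∑ x ∈ S, AddMonoidAlgebra.single x 1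

omit [Fintype G] [DecidableEq G] in
lemma ev_single (ψ : AddChar G ℂ) (x : G) (z : ℤ) :
    ev ψ (AddMonoidAlgebra.single x z) = z * ψ x := by
  simp [ev]

omit [Fintype G] [DecidableEq G] in
lemma ev_ind (ψ : AddChar G ℂ) (S : Finset G) : ev ψ (ind S) = chi ψ S := by
  simp [ind, chi, map_sum, ev_single]

lemma sum_ev (X : AddMonoidAlgebra ℤ G) :
    ∃ z : ℤ, ∑ ψ : AddChar G ℂ, ev ψ X = Fintype.card G * z := by
  induction X using AddMonoidAlgebra.induction_linear with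
  | zero => exact ⟨0, by simp⟩
  | add X Y hX hY =>
    obtain ⟨a, ha⟩ := hX
    obtain ⟨b, hb⟩ := hY
    refine ⟨a + b, ?_⟩
    simp only [map_add, Finset.sum_add_distrib, ha, hb]; push_cast; ring
  | single x z =>
    simp only [ev_single, ← Finset.mul_sum, AddChar.sum_apply_eq_ite]
    by_cases hx : x = 0
    · exact ⟨z, by simp [hx, mul_comm]⟩
    · exact ⟨0, by simp [hx]⟩

lemma card_dvd_of_vanish (X : AddMonoidAlgebra ℤ G) (N : ℕ) (h0 : ev 0 X = N)
    (h : ∀ ψ : AddChar G ℂ, ψ ≠ 0 → ev ψ X = 0) : Fintype.card G ∣ N := by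
  classical
  obtain ⟨z, hz⟩ := sum_ev X
  rw [Finset.sum_eq_single 0 (fun ψ _ hψ => h ψ hψ) (by simp), h0] at hz
  have : (N : ℤ) = Fintype.card G * z := by exact_mod_cast hz
  exact Int.natCast_dvd_natCast.1 ⟨z, this⟩

variable {m k lam : ℕ} {A : Fin m → Finset G}

lemma pairs_lt {m lam : ℕ} {p : ℕ × ℕ} (hp : p ∈ pairs m lam) :
    1 ≤ p.2 ∧ p.2 < p.1 ∧ Nat.Coprime p.1 p.2 ∧ (p.1 + p.2) ∣ (m - 2) ∧ p.1 * p.2 ∣ lam :=
  (Finset.mem_filter.1 hp).2

theorem card_dvd (hA : IsSEDF m k lam A) (hm : 2 < m) (hl : 0 < lam) :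
    Fintype.card G ∣ k ^ (2 * (pairs m lam).card + 1) * bigF m lam := by
  set D := univ.biUnion A
  set A0 := A ⟨0, by omega⟩
  refine card_dvd_of_vanish (ind D * ∏ p ∈ pairs m lam,
    ((((p.1 : ℤ) : AddMonoidAlgebra ℤ G) * ind D
        - (((p.1 : ℤ) - p.2 : ℤ) : AddMonoidAlgebra ℤ G) * ind A0) *
      (((p.2 : ℤ) : AddMonoidAlgebra ℤ G) * ind D
        + (((p.1 : ℤ) - p.2 : ℤ) : AddMonoidAlgebra ℤ G) * ind A0))) _ ?_ ?_
  · simp only [map_mul, map_prod, map_sub, map_add, map_intCast, ev_ind, chi_zero]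
    have hD : D.card = k * m := card_union_all hA
    have h0 : A0.card = k := hA.1 _
    have hm1 : 1 ≤ m := by omega
    rw [hD, h0, bigF]
    push_cast [Nat.cast_sub hm1]
    rw [Finset.prod_congr rfl (g := fun p => (k : ℂ) ^ 2 *
      ((((m : ℂ) - 1) * p.1 + p.2) * (((m : ℂ) - 1) * p.2 + p.1))) (fun p _ => by ring)]
    rw [Finset.prod_mul_distrib, Finset.prod_const, ← pow_mul]
    ring
  · intro ψ hψ
    simp only [map_mul, map_prod, map_sub, map_add, map_intCast, ev_ind]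
    have hD : chi ψ D = ∑ j, chi ψ (A j) := chi_union hA ψ
    by_cases hs : ∑ j, chi ψ (A j) = 0
    · rw [hD, hs, zero_mul]
    · obtain ⟨α, β, T, θ, hp, -, -, -, -, h8, h9, -, -⟩ := struct hA hm hl hψ hs
      apply mul_eq_zero_of_right
      apply Finset.prod_eq_zero hp
      rw [hD, h8]
      rcases h9 ⟨0, by omega⟩ with h | h
      · apply mul_eq_zero_of_left
        simp only [A0]; rw [h]; push_cast; ring
      · apply mul_eq_zero_of_right
        simp only [A0]; rw [h]; push_cast; ring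

theorem exists_pair_not_dvd (hA : IsSEDF m k lam A) (hm : 2 < m) (hk : 1 < k) (hl : 0 < lam)
    {q : ℕ} (hq : q.Prime) (hqn : ¬ q ∣ Fintype.card G) :
    ∃ p ∈ pairs m lam, ¬ q ∣ p.1 - p.2 := by
  classical
  by_contra hcon
  push Not at hcon
  set D := univ.biUnion A
  have hD : D.card = k * m := card_union_all hA
  have hlt := km_lt hA hm hk
  obtain ⟨g, hg⟩ : D.Nonempty := by
    rw [← Finset.card_pos, hD]; exact Nat.mul_pos (by omega) (by omega)
  obtain ⟨h, hh⟩ : ∃ h, h ∉ D := by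
    by_contra hc
    push Not at hc
    have : D = univ := Finset.eq_univ_iff_forall.2 hc
    rw [this, Finset.card_univ] at hD
    omega
  have key : ∀ ψ : AddChar G ℂ, ∃ w : ℂ, IsIntegral ℤ w ∧
      chi ψ D * ψ (-g) - chi ψ D * ψ (-h) = q * w := by
    intro ψ
    by_cases hψ : ψ = 0
    · exact ⟨0, isIntegral_zero, by simp [hψ]⟩
    have hDψ : chi ψ D = ∑ j, chi ψ (A j) := chi_union hA ψ
    by_cases hs : ∑ j, chi ψ (A j) = 0
    · exact ⟨0, isIntegral_zero, by simp [hDψ, hs]⟩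
    obtain ⟨α, β, T, θ, hp, hlt, -, hθ, -, h8, -⟩ := struct hA hm hl hψ hs
    obtain ⟨c, hc⟩ := hcon _ hp
    have hc' : (α : ℂ) - β = q * c := by
      have : ((α - β : ℕ) : ℂ) = q * c := by exact_mod_cast hc
      rw [← this, Nat.cast_sub hlt.le]
    refine ⟨c * θ * (ψ (-g) - ψ (-h)), ((isIntegral_natCast c).mul hθ).mul
      ((char_isIntegral ψ _).sub (char_isIntegral ψ _)), ?_⟩
    rw [hDψ, h8, hc']; ring
  choose w hw1 hw2 using key
  have h1 := fourier D g
  have h2 := fourier D h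
  simp only [hg, hh, if_true, if_false, mul_one, mul_zero] at h1 h2
  have h3 : ((Fintype.card G : ℤ) : ℂ) = q * ∑ ψ, w ψ := by
    rw [Finset.mul_sum, ← Finset.sum_congr rfl (fun ψ _ => hw2 ψ), Finset.sum_sub_distrib, h1, h2]
    simp
  exact hqn (Int.natCast_dvd_natCast.1
    (dvd_of_isIntegral hq.pos (IsIntegral.sum _ (fun ψ _ => hw1 ψ)) h3))

omit [Fintype G] [DecidableEq G] in
lemma prime_dvd_of_rel {p : ℕ} (hp : p.Prime) (ψ : AddChar G ℂ) (hψ : p • ψ = 0)
    (S S' : Finset G) (a b : ℕ) (h : a * chi ψ S + b * chi ψ S' = 0) :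
    p ∣ a * S.card + b * S'.card := by
  have := Fact.mk hp
  have : NeZero p := ⟨hp.ne_zero⟩
  have hζ := Complex.isPrimitiveRoot_exp p hp.ne_zero
  set ζ := Complex.exp (2 * Real.pi * Complex.I / p)
  have hpow : ∀ x, ∃ i < p, ζ ^ i = ψ x := by
    intro x
    apply hζ.eq_pow_of_pow_eq_one
    rw [← AddChar.nsmul_apply, hψ]; simp
  choose c _ hc using hpow
  set f : Polynomial ℤ := Polynomial.C (a : ℤ) * ∑ x ∈ S, Polynomial.X ^ c x +
    Polynomial.C (b : ℤ) * ∑ x ∈ S', Polynomial.X ^ c x with hf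
  have h1 : Polynomial.aeval ζ f = 0 := by
    simp only [hf, map_add, map_mul, map_sum, map_pow, Polynomial.aeval_X, hc, map_natCast]
    exact h
  have h2 := minpoly.isIntegrallyClosed_dvd (hζ.isIntegral hp.pos) h1
  rw [← Polynomial.cyclotomic_eq_minpoly hζ hp.pos] at h2
  have h3 := Polynomial.eval_dvd (x := 1) h2
  rw [Polynomial.eval_one_cyclotomic_prime] at h3
  simp only [hf, Polynomial.eval_add, Polynomial.eval_mul, Polynomial.eval_C,
    Polynomial.eval_finsetSum, Polynomial.eval_pow, Polynomial.eval_X, one_pow, sum_const,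
    nsmul_eq_mul, mul_one] at h3
  exact_mod_cast h3

theorem prime_dvd_m (hA : IsSEDF m k lam A) (hm : 2 < m) (hl : 0 < lam)
    {p : ℕ} (hp : p.Prime) (hpn : p ∣ Fintype.card G) (hpk : ¬ p ∣ k) : p ∣ m * (m - 2) := by
  classical
  have := Fact.mk hp
  obtain ⟨ψ, hψ⟩ := exists_prime_addOrderOf_dvd_card (G := AddChar G ℂ) p
    (by rw [AddChar.card_eq]; exact hpn)
  have hψ0 : ψ ≠ 0 := by
    rintro rfl
    rw [addOrderOf_zero] at hψ
    exact hp.one_lt.ne hψ
  have hpψ : p • ψ = 0 := by rw [← hψ]; exact addOrderOf_nsmul_eq_zero ψ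
  by_cases hs : ∑ j, chi ψ (A j) = 0
  · have := prime_dvd_of_rel hp ψ hpψ (univ.biUnion A) ∅ 1 0
      (by rw [chi_union hA, hs]; simp)
    rw [card_union_all hA] at this
    simp only [one_mul, zero_mul, add_zero] at this
    exact Dvd.dvd.mul_right (((Nat.Prime.dvd_mul hp).1 this).resolve_left hpk) _
  · obtain ⟨α, β, T, θ, hpp, -, -, -, -, -, -, ⟨i, hi⟩, ⟨j, hj⟩⟩ := struct hA hm hl hψ0 hs
    have := prime_dvd_of_rel hp ψ hpψ (A i) (A j) β α (by rw [hi, hj]; ring)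
    rw [hA.1, hA.1, ← add_mul, add_comm] at this
    have h2 := ((Nat.Prime.dvd_mul hp).1 this).resolve_right hpk
    exact Dvd.dvd.mul_left (h2.trans (pairs_lt hpp).2.2.2.1) _

/-- the squared modulus of a non-principal character value of the union -/
lemma normSq_union (hA : IsSEDF m k lam A) (hm : 2 < m) (hl : 0 < lam) {ψ : AddChar G ℂ}
    (hψ : ψ ≠ 0) :
    chi ψ (univ.biUnion A) = 0 ∨ ∃ p ∈ pairs m lam, ∃ T : ℕ, lam = p.1 * p.2 * T ∧
      chi ψ (univ.biUnion A) * (starRingEnd ℂ) (chi ψ (univ.biUnion A))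
        = (((p.1 - p.2) ^ 2 * T : ℕ) : ℂ) := by
  rw [chi_union hA]
  by_cases hs : ∑ j, chi ψ (A j) = 0
  · exact Or.inl hs
  · obtain ⟨α, β, T, θ, hp, hlt, hT, -, hθ, h8, -⟩ := struct hA hm hl hψ hs
    refine Or.inr ⟨_, hp, T, hT, ?_⟩
    rw [h8]
    simp only [map_mul, map_sub, map_natCast]
    push_cast [Nat.cast_sub hlt.le]
    rw [← hθ]; ring

/-- Parseval: natural numbers `w ψ` adding up to `k m (n - k m)` -/
lemma exists_weights (hA : IsSEDF m k lam A) (hm : 2 < m) (hk : 1 < k) (hl : 0 < lam) :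
    ∃ w : AddChar G ℂ → ℕ, w 0 = 0 ∧ (∀ ψ, w (-ψ) = w ψ) ∧
      (∀ ψ, w ψ ≤ (Fintype.card G - k * m) ^ 2) ∧
      (∀ ψ, w ψ = 0 ∨ ∃ p ∈ pairs m lam, ∃ T : ℕ, lam = p.1 * p.2 * T ∧
        w ψ = (p.1 - p.2) ^ 2 * T) ∧
      ∑ ψ, w ψ = k * m * (Fintype.card G - k * m) := by
  classical
  set D := univ.biUnion A
  have hD : D.card = k * m := card_union_all hA
  have hlt := km_lt hA hm hk
  have key : ∀ ψ : AddChar G ℂ, ∃ w : ℕ,
      (w : ℂ) = (if ψ = 0 then 0 else chi ψ D * (starRingEnd ℂ) (chi ψ D)) ∧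
      (w = 0 ∨ ∃ p ∈ pairs m lam, ∃ T : ℕ, lam = p.1 * p.2 * T ∧ w = (p.1 - p.2) ^ 2 * T) := by
    intro ψ
    by_cases hψ : ψ = 0
    · exact ⟨0, by simp [hψ], Or.inl rfl⟩
    rcases normSq_union hA hm hl hψ with h | ⟨p, hp, T, hT, h⟩
    · exact ⟨0, by simp [hψ, D, h], Or.inl rfl⟩
    · exact ⟨_, by rw [if_neg hψ]; exact h.symm, Or.inr ⟨p, hp, T, hT, rfl⟩⟩
  choose w hw1 hw2 using key
  refine ⟨w, ?_, ?_, ?_, hw2, ?_⟩
  · have := hw1 0
    simpa using this
  · intro ψ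
    have h1 := hw1 ψ
    have h2 := hw1 (-ψ)
    have h3 : chi (-ψ) D = (starRingEnd ℂ) (chi ψ D) := by
      rw [conj_chi]; simp [chi]
    simp only [neg_eq_zero, h3, Complex.conj_conj] at h2
    have : (w (-ψ) : ℂ) = w ψ := by
      rw [h1, h2]; split_ifs
      · rfl
      · ring
    exact_mod_cast this
  · intro ψ
    have h1 := hw1 ψ
    by_cases hψ : ψ = 0
    · have : w ψ = 0 := by simpa [hψ] using h1
      omega
    rw [if_neg hψ, Complex.mul_conj] at h1
    have h2 : (w ψ : ℝ) = Complex.normSq (chi ψ D) := by exact_mod_cast h1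
    have h3 : chi ψ D = - chi ψ Dᶜ := by
      have := Finset.sum_add_sum_compl D ψ
      rw [AddChar.sum_eq_ite, if_neg hψ] at this
      simp only [chi]; linear_combination this
    have h4 : ‖chi ψ Dᶜ‖ ≤ ((Fintype.card G - k * m : ℕ) : ℝ) := by
      refine (norm_sum_le _ _).trans ?_
      simp [AddChar.norm_apply, Finset.card_compl, hD]
    have h5 : (w ψ : ℝ) ≤ ((Fintype.card G - k * m : ℕ) : ℝ) ^ 2 := by
      rw [h2, h3, Complex.normSq_neg, Complex.normSq_eq_norm_sq]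
      exact pow_le_pow_left₀ (norm_nonneg _) h4 2
    exact_mod_cast h5
  · have h1 := parseval D
    rw [← Finset.add_sum_erase univ _ (mem_univ (0 : AddChar G ℂ)), chi_zero, hD] at h1
    have h2 : ((∑ ψ, w ψ : ℕ) : ℂ) = ∑ ψ ∈ univ.erase 0, chi ψ D * (starRingEnd ℂ) (chi ψ D) := by
      push_cast
      rw [← Finset.add_sum_erase univ _ (mem_univ (0 : AddChar G ℂ)), hw1 0, if_pos rfl, zero_add]
      refine Finset.sum_congr rfl (fun ψ hψ => ?_)
      rw [hw1 ψ, if_neg (Finset.ne_of_mem_erase hψ)]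
    have h3 : ((∑ ψ, w ψ : ℕ) : ℂ) = ((k * m * (Fintype.card G - k * m) : ℕ) : ℂ) := by
      rw [h2]
      simp only [map_natCast] at h1
      push_cast [Nat.cast_sub hlt.le] at h1 ⊢
      linear_combination h1
    exact_mod_cast h3

theorem exists_pair_mean (hA : IsSEDF m k lam A) (hm : 2 < m) (hk : 1 < k) (hl : 0 < lam) :
    ∃ p ∈ pairs m lam, k * m * (Fintype.card G - k * m) * (p.1 * p.2)
      ≤ (Fintype.card G - 1) * lam * (p.1 - p.2) ^ 2 := by
  classical
  obtain ⟨w, h0, -, -, hw, hsum⟩ := exists_weights hA hm hk hl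
  have hlt := km_lt hA hm hk
  obtain ⟨ψ, -, hψ⟩ := Finset.exists_max_image univ w ⟨0, mem_univ _⟩
  have hle : ∑ φ, w φ ≤ (Fintype.card G - 1) * w ψ := by
    rw [← Finset.add_sum_erase univ _ (mem_univ (0 : AddChar G ℂ)), h0, zero_add]
    refine (Finset.sum_le_card_nsmul _ _ (w ψ) (fun φ _ => hψ φ (mem_univ _))).trans ?_
    simp [AddChar.card_eq]
  have hpos : 0 < k * m * (Fintype.card G - k * m) :=
    Nat.mul_pos (Nat.mul_pos (by omega) (by omega)) (by omega)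
  rcases hw ψ with h | ⟨p, hp, T, hT, h⟩
  · rw [h, hsum] at hle; omega
  · refine ⟨p, hp, ?_⟩
    rw [hsum, h] at hle
    calc _ ≤ (Fintype.card G - 1) * ((p.1 - p.2) ^ 2 * T) * (p.1 * p.2) :=
          Nat.mul_le_mul_right _ hle
      _ = _ := by conv_rhs => rw [hT]
                  ring

theorem exists_pair_small (hA : IsSEDF m k lam A) (hm : 2 < m) (hk : 1 < k) (hl : 0 < lam) :
    ∃ p ∈ pairs m lam, lam * (p.1 - p.2) ^ 2 ≤ (Fintype.card G - k * m) ^ 2 * (p.1 * p.2) := by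
  classical
  obtain ⟨w, -, -, hc, hw, hsum⟩ := exists_weights hA hm hk hl
  have hlt := km_lt hA hm hk
  have hpos : 0 < k * m * (Fintype.card G - k * m) :=
    Nat.mul_pos (Nat.mul_pos (by omega) (by omega)) (by omega)
  obtain ⟨ψ, -, hψ⟩ : ∃ ψ ∈ univ, w ψ ≠ 0 := by
    apply Finset.exists_ne_zero_of_sum_ne_zero
    omega
  rcases hw ψ with h | ⟨p, hp, T, hT, h⟩
  · exact absurd h hψ
  · refine ⟨p, hp, ?_⟩
    have := hc ψ
    rw [h] at this
    calc _ = (p.1 - p.2) ^ 2 * T * (p.1 * p.2) := by conv_lhs => rw [hT]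
                                                     ring
      _ ≤ _ := Nat.mul_le_mul_right _ this

theorem parity (hA : IsSEDF m k lam A) (hm : 2 < m) (hk : 1 < k) (hl : 0 < lam)
    (hodd : Odd (Fintype.card G)) {d : ℕ} (hd : 0 < d)
    (hdiv : ∀ p ∈ pairs m lam, ∀ T, lam = p.1 * p.2 * T → d ∣ (p.1 - p.2) ^ 2 * T) :
    2 * d ∣ k * m * (Fintype.card G - k * m) := by
  classical
  obtain ⟨w, h0, hneg, -, hw, hsum⟩ := exists_weights hA hm hk hl
  have hdw : ∀ ψ, d ∣ w ψ := by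
    intro ψ
    rcases hw ψ with h | ⟨p, hp, T, hT, h⟩
    · rw [h]; exact dvd_zero _
    · rw [h]; exact hdiv p hp T hT
  have h1 : ∑ ψ, w ψ = d * ∑ ψ, w ψ / d := by
    rw [Finset.mul_sum]
    exact Finset.sum_congr rfl (fun ψ _ => (Nat.mul_div_cancel' (hdw ψ)).symm)
  have h2 : ∑ ψ : AddChar G ℂ, ((w ψ / d : ℕ) : ZMod 2) = 0 := by
    apply Finset.sum_involution (fun ψ _ => -ψ)
    · intro ψ _
      rw [hneg]; exact CharTwo.add_self_eq_zero _
    · intro ψ _ hne heq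
      apply hne
      have h2ψ : 2 • ψ = 0 := by rw [two_nsmul]; nth_rewrite 1 [← heq]; simp
      have hn : (Fintype.card G) • ψ = 0 := by
        rw [← AddChar.card_eq (α := G)]; exact card_nsmul_eq_zero
      obtain ⟨t, ht⟩ := hodd
      have : ψ = 0 := by
        rw [ht, add_nsmul, mul_nsmul, h2ψ] at hn
        simpa using hn
      rw [this, h0]; simp
    · intro ψ _; simp
    · intro ψ _; simp
  have h3 : 2 ∣ ∑ ψ : AddChar G ℂ, w ψ / d := by
    rw [← ZMod.natCast_eq_zero_iff, Nat.cast_sum]; exact h2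
  rw [← hsum, h1, mul_comm 2 d]
  exact Nat.mul_dvd_mul_left d h3

end Pool.Agent.Lib.MP_e8b612_co
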