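import Pool.Agent.Lib.MP_e8b612_co.CycDescent
import Pool.Agent.Lib.MP_e8b612_co.Main

namespace Pool.Agent.Lib.MP_e8b612_co
open Polynomial Finset

lemma neg_pell {g : ℕ} (hg : 2 ≤ g) : ∀ y x : ℕ, x ^ 2 + 1 ≠ g * (g + 1) * y ^ 2 := by
  intro y
  induction y using Nat.strong_induction_on with
  | _ y ih =>
    intro x h
    have hy : 0 < y := by
      rcases Nat.eq_zero_or_pos y with h0 | h0
      · rw [h0] at h; simp at h
      · exact h0
    have h1 : g * y < x := by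
      by_contra hh
      have h2 : x ^ 2 ≤ (g * y) ^ 2 := Nat.pow_le_pow_left (not_lt.1 hh) 2
      have h3 : 2 * 1 ≤ g * y ^ 2 := Nat.mul_le_mul hg (pow_pos hy 2)
      nlinarith
    have h2 : 2 * x < (2 * g + 1) * y := by
      by_contra hh
      have h3 : ((2 * g + 1) * y) ^ 2 ≤ (2 * x) ^ 2 := Nat.pow_le_pow_left (not_lt.1 hh) 2
      nlinarith
    obtain ⟨y', hy'⟩ := Nat.exists_eq_add_of_le h2.le
    have hlt : y' < y := by nlinarith
    apply ih y' hlt (((2 * g + 1) * x - 2 * g * (g + 1) * y : ℤ)).natAbs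
    have hz : ((x : ℤ)) ^ 2 + 1 = g * (g + 1) * y ^ 2 := by exact_mod_cast h
    have hz' : (2 * (g : ℤ) + 1) * y = 2 * x + y' := by exact_mod_cast hy'
    have e : (y' : ℤ) = (2 * (g : ℤ) + 1) * y - 2 * x := by linarith
    zify
    rw [sq_abs, e]
    linear_combination hz

lemma coprime_arith {lam k w c a b T : ℕ} (hk : 1 < k) (hw : 0 < w) (hb : 1 ≤ b) (hab : b < a)
    (hT : lam = a * b * T) (hl : 0 < lam) (M : ℕ) (hM : M + 1 = lam * (1 + w)) (hd : (a + b) ∣ M)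
    (hk2 : w * k ^ 2 + 1 = lam ^ 2 * (1 + w)) (hc : k * (M + 2) + c = k ^ 2 * (1 + w) + 1)
    (hmean : c * (a * b) < k * (a - b) ^ 2) : False := by
  have h1 : lam < k := by
    by_contra hh
    have h2 : k ^ 2 ≤ lam ^ 2 := Nat.pow_le_pow_left (not_lt.1 hh) 2
    have h3 : w * k ^ 2 ≤ w * lam ^ 2 := Nat.mul_le_mul_left _ h2
    have h4 : lam ^ 2 ≤ 1 := by nlinarith
    have h5 : 2 ≤ lam := by omega
    nlinarith
  obtain ⟨d, rfl⟩ := Nat.exists_eq_add_of_lt h1
  obtain ⟨δ, rfl⟩ := Nat.exists_eq_add_of_lt hab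
  have e0 : b + δ + 1 - b = δ + 1 := by omega
  rw [e0] at hmean
  set k := lam + d + 1 with hkdef
  set a := b + δ + 1 with hadef
  have hc2 : c + k = k * ((1 + w) * (d + 1)) + 1 := by
    have : k * (M + 2) = k * (lam * (1 + w)) + k := by rw [← hM]; ring
    rw [this] at hc
    have e : k ^ 2 * (1 + w) = k * (lam * (1 + w)) + k * ((1 + w) * (d + 1)) := by
      rw [hkdef]; ring
    omega
  have h2 : (1 + w) * (d + 1) * b < a := by
    have h3 : k * ((1 + w) * (d + 1) * (a * b)) < k * (a * b + (δ + 1) ^ 2) := by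
      have : (c + k) * (a * b) < k * (a * b + (δ + 1) ^ 2) := by nlinarith
      rw [hc2] at this
      nlinarith
    have h4 := lt_of_mul_lt_mul_left h3 (Nat.zero_le _)
    have h5 : a * b + (δ + 1) ^ 2 ≤ a * a := by rw [hadef]; nlinarith
    have h6 : a * ((1 + w) * (d + 1) * b) < a * a := by nlinarith
    exact lt_of_mul_lt_mul_left h6 (Nat.zero_le _)
  have h3 : lam ^ 2 = 1 + w * (d + 1) * (2 * lam + (d + 1)) := by
    have : w * k ^ 2 = w * lam ^ 2 + w * (d + 1) * (2 * lam + (d + 1)) := by rw [hkdef]; ring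
    nlinarith
  have h4 : lam < 2 * ((1 + w) * (d + 1)) := by
    by_contra hh
    have h5 := not_lt.1 hh
    have h6 : lam * (2 * ((1 + w) * (d + 1))) ≤ lam * lam := Nat.mul_le_mul_left _ h5
    have h7 : (d + 1) * (2 * ((1 + w) * (d + 1))) ≤ (d + 1) * lam := Nat.mul_le_mul_left _ h5
    nlinarith [Nat.zero_le (w * d * d), Nat.zero_le (w * d), Nat.zero_le (d * d)]
  have hT0 : 0 < T := by
    rcases Nat.eq_zero_or_pos T with h | h
    · rw [h] at hT; omega
    · exact h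
  have h5 : b * b * T < 2 := by
    have h6 : lam * b < 2 * a := by nlinarith
    have h7 : a * (b * b * T) < a * 2 := by rw [hT] at h6; nlinarith
    exact lt_of_mul_lt_mul_left h7 (Nat.zero_le _)
  have hb1 : b = 1 := by
    by_contra hh
    have : 2 * 2 * 1 ≤ b * b * T :=
      Nat.mul_le_mul (Nat.mul_le_mul (by omega) (by omega)) hT0
    omega
  have hT1 : T = 1 := by rw [hb1] at h5; omega
  have ha : lam = a := by rw [hT, hb1, hT1]; ring
  rw [← ha, hb1] at hd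
  have h6 : lam + 1 ∣ w + 2 := by
    have e : (lam + 1) * (1 + w) = M + (w + 2) := by nlinarith
    exact (Nat.dvd_add_right hd).1 ⟨_, e.symm⟩
  have h7 := Nat.le_of_dvd (by omega) h6
  have h8 : lam * lam ≤ lam * (w + 1) := Nat.mul_le_mul_left _ (by omega)
  have h9 : lam * 1 ≤ lam * w := Nat.mul_le_mul_left _ hw
  nlinarith [Nat.zero_le (w * d * lam), Nat.zero_le (w * d), Nat.zero_le (w * d * d)]

lemma arith {n m k lam a b : ℕ} (hm : 2 < m) (hk : 1 < k) (hl : 0 < lam) (hlt : k * m < n)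
    (hc : k ^ 2 * (m - 1) = lam * (n - 1)) (hdvd : n ∣ k * (m * (m - 2)))
    (hb : 1 ≤ b) (hab : b < a) (hd : (a + b) ∣ m - 2) (hT : a * b ∣ lam)
    (hmean : k * m * (n - k * m) * (a * b) ≤ (n - 1) * lam * (a - b) ^ 2) : False := by
  obtain ⟨M, rfl⟩ : ∃ M, m = M + 2 := ⟨m - 2, by omega⟩
  obtain ⟨N, rfl⟩ : ∃ N, n = N + 1 := ⟨n - 1, by omega⟩
  have e1 : M + 2 - 1 = M + 1 := by omega
  simp only [e1, Nat.add_sub_cancel] at hc hdvd hd hmean
  have hM : 0 < M := by omega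
  set g := Nat.gcd (N + 1) k with hg
  have hg0 : 0 < g := Nat.gcd_pos_of_pos_left _ (by omega)
  obtain ⟨n1, hn1⟩ : g ∣ N + 1 := Nat.gcd_dvd_left _ _
  obtain ⟨k1, hk1⟩ : g ∣ k := Nat.gcd_dvd_right _ _
  have hcop : Nat.Coprime n1 k1 := by
    have := Nat.coprime_div_gcd_div_gcd (m := N + 1) (n := k) hg0
    rw [← hg] at this
    rwa [hn1, hk1, Nat.mul_div_cancel_left _ hg0, Nat.mul_div_cancel_left _ hg0] at this
  obtain ⟨w, hw⟩ : n1 ∣ (M + 2) * M := by
    apply hcop.dvd_of_dvd_mul_left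
    apply Nat.dvd_of_mul_dvd_mul_left hg0
    rw [← hn1, ← mul_assoc, ← hk1]; exact hdvd
  have hw0 : 0 < w := Nat.pos_of_mul_pos_left (hw ▸ Nat.mul_pos (by omega) hM)
  have hgN : Nat.Coprime g N := by
    apply Nat.Coprime.coprime_dvd_left (Dvd.intro _ hn1.symm)
    simp
  obtain ⟨l1, hl1⟩ : g ^ 2 ∣ lam := by
    apply (Nat.Coprime.pow_left 2 hgN).dvd_of_dvd_mul_right
    exact ⟨k1 ^ 2 * (M + 1), by rw [← hc, hk1]; ring⟩
  have hl10 : 0 < l1 := Nat.pos_of_mul_pos_left (hl1 ▸ hl)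
  have hc1 : k1 ^ 2 * (M + 1) = l1 * N := by
    apply Nat.eq_of_mul_eq_mul_left (pow_pos hg0 2)
    rw [← mul_assoc, ← mul_assoc, ← hl1, ← hc, hk1]; ring
  have hnw : (N + 1) * w = g * ((M + 2) * M) := by rw [hn1, hw]; ring
  have hE : w * k1 ^ 2 * (M + 1) + l1 * (g + w) = l1 * g * (M + 1) * (M + 1) := by
    have : w * k1 ^ 2 * (M + 1) = l1 * (N * w) := by rw [mul_assoc, hc1]; ring
    rw [this]
    have h2 : l1 * ((N + 1) * w) = l1 * (g * ((M + 2) * M)) := by rw [hnw]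
    nlinarith
  obtain ⟨j, hj⟩ : (M + 1) ∣ l1 * (g + w) :=
    (Nat.dvd_add_right (Dvd.intro_left _ rfl)).1 (hE ▸ Dvd.intro_left _ rfl)
  have hineq : g * l1 * w < M := by
    have h1 : k * (M + 2) ≤ N := by omega
    have h2 : (k * (M + 2)) ^ 2 ≤ N ^ 2 := Nat.pow_le_pow_left h1 2
    have hN0 : 0 < N := lt_of_lt_of_le (Nat.mul_pos (by omega) (by omega)) h1
    have h3 : N * (lam * (M + 2) ^ 2) ≤ N * (N * (M + 1)) := by
      calc N * (lam * (M + 2) ^ 2) = (k * (M + 2)) ^ 2 * (M + 1) := by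
            rw [← mul_assoc, mul_comm N, ← hc]; ring
        _ ≤ N ^ 2 * (M + 1) := Nat.mul_le_mul_right _ h2
        _ = _ := by ring
    have h4 := Nat.le_of_mul_le_mul_left h3 hN0
    have h5 : lam * (M + 2) ^ 2 * w < g * ((M + 2) * M) * (M + 2) := by
      calc lam * (M + 2) ^ 2 * w ≤ N * (M + 1) * w := Nat.mul_le_mul_right _ h4
        _ < (N + 1) * w * (M + 2) := by nlinarith
        _ = _ := by rw [hnw]
    have h6 : (g * (M + 2) ^ 2) * (g * l1 * w) < (g * (M + 2) ^ 2) * M := by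
      rw [hl1] at h5; nlinarith
    exact lt_of_mul_lt_mul_left h6 (Nat.zero_le _)
  have hj0 : 0 < j := Nat.pos_of_mul_pos_left (hj ▸ Nat.mul_pos hl10 (by omega))
  have hgw : g * w < g + w := by
    have h1 : (M + 1) * 1 ≤ (M + 1) * j := Nat.mul_le_mul_left _ hj0
    have h2 : l1 * (g * w) < l1 * (g + w) := by nlinarith
    exact lt_of_mul_lt_mul_left h2 (Nat.zero_le _)
  have hj1 : j = 1 := by
    by_contra hh
    have h1 : (M + 1) * 2 ≤ (M + 1) * j := Nat.mul_le_mul_left _ (by omega)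
    have h2 : g * 1 ≤ g * w := Nat.mul_le_mul_left _ hw0
    have h3 : 1 * w ≤ g * w := Nat.mul_le_mul_right _ hg0
    have h4 : l1 * (g + w) ≤ l1 * (2 * (g * w)) := Nat.mul_le_mul_left _ (by omega)
    nlinarith
  rw [hj1, mul_one] at hj
  have hE2 : w * k1 ^ 2 + 1 = l1 * g * (M + 1) := by
    apply Nat.eq_of_mul_eq_mul_right (Nat.succ_pos M)
    rw [hj] at hE
    linarith
  by_cases hg1 : g = 1
  · rw [hg1] at hk1 hl1 hj hE2
    simp only [one_mul, one_pow, mul_one] at hk1 hl1 hE2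
    subst hk1 hl1
    obtain ⟨T, hT⟩ := hT
    obtain ⟨c, hcc⟩ := Nat.exists_eq_add_of_le hlt.le
    have hN : N = k ^ 2 * (1 + w) := by
      apply Nat.eq_of_mul_eq_mul_left hl
      rw [← hc, ← hj]; ring
    have hc0 : 0 < c := by omega
    refine coprime_arith (c := c) hk hw0 hb hab hT hl M hj.symm hd (by rw [hE2, ← hj]; ring)
      (by omega) ?_
    have e2 : N + 1 - k * (M + 2) = c := by omega
    rw [e2, mul_comm N, ← hc] at hmean
    have h1 : (k * (M + 2)) * (c * (a * b)) < (k * (M + 2)) * (k * (a - b) ^ 2) := by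
      have h2 : 0 < k ^ 2 * (a - b) ^ 2 := by
        have : 0 < a - b := by omega
        positivity
      nlinarith
    exact lt_of_mul_lt_mul_left h1 (Nat.zero_le _)
  · have hg2 : 2 ≤ g := by omega
    have hw1 : w = 1 := by
      by_contra hh
      have : 2 ≤ w := by omega
      nlinarith
    rw [hw1] at hj hE2
    exact neg_pell hg2 l1 k1 (by rw [← hj] at hE2; linarith)

variable {G : Type*} [AddCommGroup G] [Fintype G] [DecidableEq G]
variable {m k lam : ℕ} {A : Fin m → Finset G}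

lemma char_order (hA : IsSEDF m k lam A) (hm : 2 < m) (hl : 0 < lam) {p s : ℕ} (hp : p.Prime)
    (ψ : AddChar G ℂ) (hψ : addOrderOf ψ = p ^ s) : p ^ s ∣ k * (m * (m - 2)) := by
  have hq : 0 < p ^ s := pow_pos hp.pos _
  have : NeZero (p ^ s) := ⟨hq.ne'⟩
  have hζ := Complex.isPrimitiveRoot_exp (p ^ s) hq.ne'
  set ζ := Complex.exp (2 * Real.pi * Complex.I / (p ^ s : ℕ))
  have hpow : ∀ x, ∃ i < p ^ s, ζ ^ i = ψ x := by
    intro x
    apply hζ.eq_pow_of_pow_eq_one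
    rw [← AddChar.nsmul_apply, ← hψ, addOrderOf_nsmul_eq_zero]; simp
  choose c _ hc using hpow
  have hn : 1 ≤ Fintype.card G := Fintype.card_pos
  refine descent (N0 := Fintype.card G - 1) hp hm s k lam (fun j => ∑ x ∈ A j, X ^ c x) hl ?_
    (count_eq hA hm) ?_ ?_
  · rw [Nat.sub_add_cancel hn, ← hψ, ← AddChar.card_eq (α := G)]
    exact addOrderOf_dvd_card
  · intro j
    simp [eval_finsetSum, hA.1]
  · intro η hη hη1 j
    obtain ⟨i, -, rfl⟩ := hζ.eq_pow_of_pow_eq_one hη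
    have h1 : ∀ j, aeval (ζ ^ i) (∑ x ∈ A j, (X : ℤ[X]) ^ c x) = chi (i • ψ) (A j) := by
      intro j
      simp only [map_sum, map_pow, aeval_X, chi, AddChar.nsmul_apply, ← hc, ← pow_mul,
        mul_comm]
    have h2 : i • ψ ≠ 0 := by
      intro h
      apply hη1
      obtain ⟨t, rfl⟩ := hψ ▸ addOrderOf_dvd_of_nsmul_eq_zero h
      rw [pow_mul, hζ.pow_eq_one, one_pow]
    simp only [h1]
    exact char_eq hA h2 j

/-- exponent bound -/
theorem exponent_dvd (hA : IsSEDF m k lam A) (hm : 2 < m) (hl : 0 < lam) :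
    AddMonoid.exponent G ∣ k * (m * (m - 2)) := by
  rw [AddMonoid.exponent_dvd_iff_forall_nsmul_eq_zero]
  intro x
  rw [← AddChar.forall_apply_eq_zero]
  intro ψ
  have h1 : addOrderOf ψ ∣ k * (m * (m - 2)) := by
    rw [Nat.dvd_iff_prime_pow_dvd_dvd]
    intro p s hp hps
    exact char_order hA hm hl hp _ (addOrderOf_nsmul_addOrderOf_sub (addOrderOf_pos ψ).ne' hps)
  rw [AddChar.map_nsmul_eq_pow, ← AddChar.nsmul_apply, addOrderOf_dvd_iff_nsmul_eq_zero.1 h1]
  simp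

theorem card_not_dvd (hA : IsSEDF m k lam A) (hm : 2 < m) (hk : 1 < k) (hl : 0 < lam) :
    ¬ Fintype.card G ∣ k * (m * (m - 2)) := by
  intro hdvd
  obtain ⟨⟨a, b⟩, hab, hmean⟩ := exists_pair_mean hA hm hk hl
  obtain ⟨h1, h2, -, h4, h5⟩ := pairs_lt hab
  exact arith hm hk hl (km_lt hA hm hk) (count_eq hA hm) hdvd h1 h2 h4 h5 hmean

theorem not_cyclic [IsAddCyclic G] (hA : IsSEDF m k lam A) (hm : 2 < m) (hk : 1 < k)
    (hl : 0 < lam) : False := by
  apply card_not_dvd hA hm hk hl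
  rw [← Nat.card_eq_fintype_card, ← IsAddCyclic.exponent_eq_card]
  exact exponent_dvd hA hm hl

end Pool.Agent.Lib.MP_e8b612_co
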