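import Pool.Agent.Lib.MP_e8b612_co.Struct

namespace Pool.Agent.Lib.MP_e8b612_co
open Polynomial Finset

lemma aeval_intg (F : ℤ[X]) {z : ℂ} (hz : IsIntegral ℤ z) : IsIntegral ℤ (aeval z F) := by
  induction F using Polynomial.induction_on' with
  | add P Q hP hQ => rw [map_add]; exact hP.add hQ
  | monomial n a =>
    rw [aeval_monomial]
    exact (isIntegral_algebraMap).mul (hz.pow n)

lemma lift_dvd {p : ℕ} (G F : ℤ[X])
    (h : G.map (Int.castRingHom (ZMod p)) ∣ F.map (Int.castRingHom (ZMod p))) :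
    ∃ U W : ℤ[X], F = G * U + C (p : ℤ) * W := by
  obtain ⟨V, hV⟩ := h
  obtain ⟨U, rfl⟩ := Polynomial.map_surjective (Int.castRingHom (ZMod p))
    (ZMod.ringHom_surjective _) V
  have h0 : (F - G * U).map (Int.castRingHom (ZMod p)) = 0 := by
    rw [Polynomial.map_sub, Polynomial.map_mul, hV, sub_self]
  have h1 : C (p : ℤ) ∣ F - G * U := by
    rw [Polynomial.C_dvd_iff_dvd_coeff]
    intro i
    have := congrArg (fun Q => Polynomial.coeff Q i) h0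
    simp only [coeff_map, eq_intCast, coeff_zero] at this
    exact (ZMod.intCast_zmod_eq_zero_iff_dvd _ _).1 this
  obtain ⟨W, hW⟩ := h1
  exact ⟨U, W, by rw [← hW]; ring⟩

lemma eval_res (U : ℤ[X]) {z : ℂ} (hz : IsIntegral ℤ z) :
    ∃ w : ℂ, IsIntegral ℤ w ∧ aeval z U = ((U.eval 1 : ℤ) : ℂ) + (z - 1) * w := by
  obtain ⟨V, hV⟩ : X - C (1 : ℤ) ∣ U - C (U.eval 1) := X_sub_C_dvd_sub_C_eval
  refine ⟨aeval z V, aeval_intg V hz, ?_⟩
  have := congrArg (aeval z) hV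
  simp only [map_sub, map_mul, aeval_X, map_one, eq_intCast, map_intCast] at this
  linear_combination this

lemma conj_root {q : ℕ} (hq : 0 < q) {z : ℂ} (hz : z ^ q = 1) :
    (starRingEnd ℂ) z = z ^ (q - 1) := by
  have hn : ‖z‖ = 1 := by
    have : ‖z‖ ^ q = 1 := by rw [← norm_pow, hz, norm_one]
    exact (pow_eq_one_iff_of_nonneg (norm_nonneg _) hq.ne').1 this
  have h1 : z * (starRingEnd ℂ) z = 1 := by
    rw [Complex.mul_conj, Complex.normSq_eq_norm_sq, hn]; simp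
  have h2 : z * z ^ (q - 1) = 1 := by
    rw [← pow_succ', Nat.sub_add_cancel hq, hz]
  have hz0 : z ≠ 0 := by rintro rfl; simp at h1
  exact mul_left_cancel₀ hz0 (h1.trans h2.symm)

lemma root_intg {q : ℕ} (hq : 0 < q) {z : ℂ} (hz : z ^ q = 1) : IsIntegral ℤ z :=
  IsIntegral.of_pow hq (by rw [hz]; exact isIntegral_one)

lemma conj_pi {q : ℕ} (hq : 0 < q) {z : ℂ} (hz : z ^ q = 1) :
    ∃ u : ℂ, IsIntegral ℤ u ∧ (starRingEnd ℂ) (z - 1) = (z - 1) * u := by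
  refine ⟨-(z ^ (q - 1)), ((root_intg hq hz).pow _).neg, ?_⟩
  have h2 : z * z ^ (q - 1) = 1 := by
    rw [← pow_succ', Nat.sub_add_cancel hq, hz]
  rw [map_sub, conj_root hq hz, map_one]
  linear_combination h2

section
variable {p s : ℕ} {ζ : ℂ}

lemma map_cyclo (hp : p.Prime) : (cyclotomic (p ^ (s + 1)) ℤ).map (Int.castRingHom (ZMod p))
    = (X - C 1) ^ (p ^ s * (p - 1)) := by
  have := Fact.mk hp
  rw [map_cyclotomic]
  have h := cyclotomic_mul_prime_pow_eq (ZMod p) (p := p) (m := 1) (hp.not_dvd_one)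
    (k := s + 1) (Nat.succ_pos s)
  rw [mul_one, cyclotomic_one] at h
  rw [h]
  congr 1
  simp only [Nat.add_sub_cancel]
  rw [Nat.mul_sub, mul_one, pow_succ]

lemma pi_pow_eq (hp : p.Prime) (hζ : IsPrimitiveRoot ζ (p ^ (s + 1))) :
    ∃ e : ℂ, IsIntegral ℤ e ∧ (ζ - 1) ^ (p ^ s * (p - 1)) = p * e := by
  have hq : 0 < p ^ (s + 1) := pow_pos hp.pos _
  obtain ⟨U, W, h⟩ := lift_dvd (p := p) (cyclotomic (p ^ (s + 1)) ℤ)
    ((X - C 1) ^ (p ^ s * (p - 1))) (by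
      rw [map_cyclo hp]; simp [Polynomial.map_pow])
  refine ⟨aeval ζ W, aeval_intg W (hζ.isIntegral hq), ?_⟩
  have h0 : aeval ζ (cyclotomic (p ^ (s + 1)) ℤ) = 0 := by
    rw [cyclotomic_eq_minpoly hζ hq]; exact minpoly.aeval ℤ ζ
  have := congrArg (aeval ζ) h
  simpa [h0] using this

lemma p_eq_pi_pow (hp : p.Prime) (hζ : IsPrimitiveRoot ζ (p ^ (s + 1))) :
    ∃ e : ℂ, IsIntegral ℤ e ∧ (p : ℂ) = (ζ - 1) ^ (p ^ s * (p - 1)) * e := by
  have := Fact.mk hp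
  have hq : 0 < p ^ (s + 1) := pow_pos hp.pos _
  have : NeZero (p ^ (s + 1)) := ⟨hq.ne'⟩
  have h1 := eval_one_cyclotomic_prime_pow (R := ℂ) (p := p) s
  rw [cyclotomic_eq_prod_X_sub_primitiveRoots hζ, eval_prod] at h1
  have key : ∀ μ : ℂ, ∃ w : ℂ, IsIntegral ℤ w ∧
      (μ ∈ primitiveRoots (p ^ (s + 1)) ℂ → eval 1 (X - C μ) = (ζ - 1) * w) := by
    intro μ
    by_cases hμ : μ ∈ primitiveRoots (p ^ (s + 1)) ℂ
    · have hμ' := (mem_primitiveRoots hq).1 hμ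
      obtain ⟨i, -, rfl⟩ := hζ.eq_pow_of_pow_eq_one hμ'.pow_eq_one
      refine ⟨-∑ j ∈ range i, ζ ^ j, ?_, fun _ => ?_⟩
      · exact (IsIntegral.sum _ (fun j _ => (hζ.isIntegral hq).pow j)).neg
      · have := mul_geom_sum ζ i
        simp only [eval_sub, eval_X, eval_C]
        linear_combination this
    · exact ⟨0, isIntegral_zero, fun h => absurd h hμ⟩
  choose w hw1 hw2 using key
  refine ⟨∏ μ ∈ primitiveRoots (p ^ (s + 1)) ℂ, w μ, IsIntegral.prod _ (fun μ _ => hw1 μ), ?_⟩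
  rw [← h1, Finset.prod_congr rfl (fun μ hμ => hw2 μ hμ), Finset.prod_mul_distrib,
    Finset.prod_const, hζ.card_primitiveRoots, Nat.totient_prime_pow_succ hp]

lemma dvd_of_pi (hp : p.Prime) (hζ : IsPrimitiveRoot ζ (p ^ (s + 1))) {c : ℤ} {w : ℂ}
    (hw : IsIntegral ℤ w) (h : (c : ℂ) = (ζ - 1) * w) : (p : ℤ) ∣ c := by
  obtain ⟨e, he, h1⟩ := pi_pow_eq hp hζ
  have h2 : ((c ^ (p ^ s * (p - 1)) : ℤ) : ℂ) = p * (e * w ^ (p ^ s * (p - 1))) := by
    push_cast; rw [h, mul_pow, h1]; ring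
  exact (Nat.prime_iff_prime_int.1 hp).dvd_of_dvd_pow
    (dvd_of_isIntegral hp.pos (he.mul (hw.pow _)) h2)

/-- the norm is congruent to the square of the augmentation -/
lemma norm_res (hp : p.Prime) (hζ : IsPrimitiveRoot ζ (p ^ (s + 1))) (F : ℤ[X]) {N : ℤ}
    (hN : aeval ζ F * (starRingEnd ℂ) (aeval ζ F) = N) : (p : ℤ) ∣ N - (F.eval 1) ^ 2 := by
  have hq : 0 < p ^ (s + 1) := pow_pos hp.pos _
  obtain ⟨w, hw, h⟩ := eval_res F (hζ.isIntegral hq)
  obtain ⟨u, hu, hc⟩ := conj_pi hq hζ.pow_eq_one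
  refine dvd_of_pi hp hζ (w := F.eval 1 * (w + u * (starRingEnd ℂ) w)
    + (ζ - 1) * u * w * (starRingEnd ℂ) w) ?_ ?_
  · exact ((isIntegral_intCast _).mul (hw.add (hu.mul (isIntegral_conj hw)))).add
      (((((hζ.isIntegral hq).sub isIntegral_one).mul hu).mul hw).mul (isIntegral_conj hw))
  · push_cast
    rw [← hN, h, map_add, map_mul, hc, map_intCast]; ring

lemma upper (hp : p.Prime) (hζ : IsPrimitiveRoot ζ (p ^ (s + 1))) (F : ℤ[X]) {N : ℤ}
    (hN : aeval ζ F * (starRingEnd ℂ) (aeval ζ F) = N) {D e : ℕ}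
    (hD : (X - C 1) ^ D ∣ F.map (Int.castRingHom (ZMod p))) (hD1 : D ≤ p ^ s * (p - 1))
    (he : e * (p ^ s * (p - 1)) < 2 * D) : (p : ℤ) ^ (e + 1) ∣ N := by
  have hq : 0 < p ^ (s + 1) := pow_pos hp.pos _
  have hi := hζ.isIntegral hq
  have hπ : IsIntegral ℤ (ζ - 1) := hi.sub isIntegral_one
  obtain ⟨U, W, h⟩ := lift_dvd (p := p) ((X - C 1) ^ D) F (by simpa [Polynomial.map_pow] using hD)
  obtain ⟨e1, he1, h1⟩ := pi_pow_eq hp hζ
  obtain ⟨e2, he2, h2⟩ := p_eq_pi_pow hp hζ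
  obtain ⟨u, hu, hc⟩ := conj_pi hq hζ.pow_eq_one
  obtain ⟨t, ht⟩ := Nat.exists_eq_add_of_le hD1
  obtain ⟨r, hr⟩ := Nat.exists_eq_add_of_lt he
  set y := aeval ζ U + (ζ - 1) ^ t * e2 * aeval ζ W with hy
  have hyi : IsIntegral ℤ y := (aeval_intg U hi).add (((hπ.pow _).mul he2).mul (aeval_intg W hi))
  have hF : aeval ζ F = (ζ - 1) ^ D * y := by
    rw [h]
    simp only [map_add, map_mul, map_pow, map_sub, aeval_X, map_one, map_natCast]
    rw [h2, ht, hy]; ring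
  have hN2 : (N : ℂ) = (p : ℂ) ^ e * ((ζ - 1) * (e1 ^ e * (ζ - 1) ^ r * u ^ D * y *
      (starRingEnd ℂ) y)) := by
    rw [← hN, hF, map_mul, map_pow, hc]
    have : (ζ - 1) ^ (2 * D) = (p * e1) ^ e * (ζ - 1) ^ r * (ζ - 1) := by
      rw [hr, ← h1]; ring
    calc _ = (ζ - 1) ^ (2 * D) * (u ^ D * y * (starRingEnd ℂ) y) := by
          rw [mul_pow, two_mul, pow_add]; ring
      _ = _ := by rw [this]; ring
  have hz : IsIntegral ℤ (e1 ^ e * (ζ - 1) ^ r * u ^ D * y * (starRingEnd ℂ) y) :=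
    ((((he1.pow _).mul (hπ.pow _)).mul (hu.pow _)).mul hyi).mul (isIntegral_conj hyi)
  obtain ⟨N', hN'⟩ := dvd_of_isIntegral (a := N) (d := p ^ e) (pow_pos hp.pos _) (hπ.mul hz)
    (by rw [hN2]; push_cast; rfl)
  have hp0 : (p : ℂ) ^ e ≠ 0 := pow_ne_zero _ (by exact_mod_cast hp.ne_zero)
  have h3 : (N' : ℂ) = (ζ - 1) * (e1 ^ e * (ζ - 1) ^ r * u ^ D * y * (starRingEnd ℂ) y) := by
    apply mul_left_cancel₀ hp0
    rw [← hN2, hN']; push_cast; ring
  rw [hN', pow_succ]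
  push_cast
  exact mul_dvd_mul_left _ (dvd_of_pi hp hζ hz h3)

lemma lower (hp : p.Prime) (hζ : IsPrimitiveRoot ζ (p ^ (s + 1))) (F : ℤ[X]) {N : ℤ}
    (hN : aeval ζ F * (starRingEnd ℂ) (aeval ζ F) = N) {D e : ℕ}
    (hdvd : (p : ℤ) ^ e ∣ N) (hD1 : D ≤ p ^ s * (p - 1))
    (he : 2 * D < e * (p ^ s * (p - 1)) + 2) :
    (X - C 1) ^ D ∣ F.map (Int.castRingHom (ZMod p)) := by
  have := Fact.mk hp
  have hq : 0 < p ^ (s + 1) := pow_pos hp.pos _
  have hi := hζ.isIntegral hq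
  have hπ : IsIntegral ℤ (ζ - 1) := hi.sub isIntegral_one
  by_contra hcon
  set Fb := F.map (Int.castRingHom (ZMod p)) with hFb
  have hF0 : Fb ≠ 0 := by rintro h; rw [h] at hcon; exact hcon (dvd_zero _)
  obtain ⟨V, hV, hV1⟩ := exists_eq_pow_rootMultiplicity_mul_and_not_dvd Fb hF0 1
  set d := Fb.rootMultiplicity 1
  have hd : d < D := by
    by_contra hh
    exact hcon (((pow_dvd_pow _ (not_lt.1 hh)).trans (Dvd.intro _ hV.symm)))
  obtain ⟨U, W, h⟩ := lift_dvd (p := p) ((X - C 1) ^ d) F (by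
    simp only [Polynomial.map_pow, Polynomial.map_sub, map_X, map_one]
    exact ⟨V, by simpa using hV⟩)
  have hUV : U.map (Int.castRingHom (ZMod p)) = V := by
    have h1 : Fb = (X - C 1) ^ d * U.map (Int.castRingHom (ZMod p)) := by
      rw [hFb, h]; simp [Polynomial.map_pow]
    rw [hV] at h1
    exact (mul_left_cancel₀ (pow_ne_zero _ (X_sub_C_ne_zero 1)) h1).symm
  have hU1 : ¬ (p : ℤ) ∣ U.eval 1 := by
    intro hh
    apply hV1
    rw [dvd_iff_isRoot, ← hUV, IsRoot.def, eval_map, eval₂_at_one]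
    simpa using (ZMod.intCast_zmod_eq_zero_iff_dvd _ _).2 hh
  obtain ⟨e2, he2, h2⟩ := p_eq_pi_pow hp hζ
  obtain ⟨u, hu, hc⟩ := conj_pi hq hζ.pow_eq_one
  obtain ⟨w, hw, hUw⟩ := eval_res U hi
  obtain ⟨t, ht⟩ := Nat.exists_eq_add_of_lt (lt_of_lt_of_le hd hD1)
  obtain ⟨r, hr⟩ := Nat.exists_eq_add_of_lt (show 2 * d < e * (p ^ s * (p - 1)) by omega)
  set y := w + (ζ - 1) ^ t * e2 * aeval ζ W with hy
  have hyi : IsIntegral ℤ y := hw.add (((hπ.pow _).mul he2).mul (aeval_intg W hi))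
  have hF : aeval ζ F = (ζ - 1) ^ d * ((U.eval 1 : ℤ) + (ζ - 1) * y) := by
    rw [h]
    simp only [map_add, map_mul, map_pow, map_sub, aeval_X, map_one, map_natCast]
    rw [h2, ht, hy, hUw]; ring
  obtain ⟨N', rfl⟩ := hdvd
  have hζ1 : ζ - 1 ≠ 0 := by
    intro h0
    have h1 : ζ = 1 := sub_eq_zero.1 h0
    have := hζ.ne_one (Nat.one_lt_pow (Nat.succ_ne_zero s) hp.one_lt)
    exact this h1
  have hζu : u * ζ = -1 := by
    have h3 : ζ * ζ ^ (p ^ (s + 1) - 1) = 1 := by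
      rw [← pow_succ', Nat.sub_add_cancel hq, hζ.pow_eq_one]
    rw [map_sub, conj_root hq hζ.pow_eq_one, map_one] at hc
    apply mul_left_cancel₀ hζ1
    linear_combination h3 - ζ * hc
  have h4 : (-1) ^ d * (((U.eval 1 : ℤ) : ℂ) + (ζ - 1) * y) *
      ((U.eval 1 : ℤ) + (ζ - 1) * u * (starRingEnd ℂ) y)
      = (ζ - 1) * ((ζ - 1) ^ r * e2 ^ e * N' * ζ ^ d) := by
    apply mul_left_cancel₀ (pow_ne_zero (2 * d) hζ1)
    rw [hF, map_mul, map_pow, map_add, map_mul, hc, map_intCast] at hN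
    push_cast at hN
    rw [h2, mul_pow _ e2, ← pow_mul, mul_comm _ e, hr] at hN
    rw [← hζu]
    calc _ = ((ζ - 1) ^ d * (((U.eval 1 : ℤ) : ℂ) + (ζ - 1) * y) *
        (((ζ - 1) * u) ^ d * ((U.eval 1 : ℤ) + (ζ - 1) * u * (starRingEnd ℂ) y))) * ζ ^ d := by
          rw [mul_pow, mul_pow, two_mul, pow_add]; ring
      _ = _ := by rw [hN]; ring
  have h5 : (((-1) ^ d * (U.eval 1) ^ 2 : ℤ) : ℂ) = (ζ - 1) * ((ζ - 1) ^ r * e2 ^ e * N' * ζ ^ d
      - (-1) ^ d * ((U.eval 1 : ℤ) * (y + u * (starRingEnd ℂ) y)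
        + (ζ - 1) * u * y * (starRingEnd ℂ) y)) := by
    push_cast; linear_combination h4
  have h6 := dvd_of_pi hp hζ (by
    refine (((((hπ.pow _).mul (he2.pow _)).mul (isIntegral_intCast _)).mul (hi.pow _))).sub
      ((isIntegral_one.neg.pow _).mul (((isIntegral_intCast _).mul
        (hyi.add (hu.mul (isIntegral_conj hyi)))).add
        (((hπ.mul hu).mul hyi).mul (isIntegral_conj hyi))))) h5
  have hpp := Nat.prime_iff_prime_int.1 hp
  rcases hpp.dvd_or_dvd h6 with h7 | h7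
  · have := hpp.dvd_of_dvd_pow h7
    exact hpp.not_isUnit (isUnit_of_dvd_unit this (by simp))
  · exact hU1 (hpp.dvd_of_dvd_pow h7)

/-- congruence for a polynomial with rational values at all `p ^ (s+1)`-th roots of unity -/
lemma rat_congr (hp : p.Prime) {ω : ℂ} (hω : ω ^ p = 1) : ∀ (s : ℕ) (H : ℤ[X]),
    (∀ η : ℂ, η ^ (p ^ (s + 1)) = 1 → ∃ z : ℤ, aeval η H = z) → ω ≠ 1 →
    ∀ z : ℤ, aeval ω H = z → (p : ℤ) ^ (s + 1) ∣ H.eval 1 - z := by
  have := Fact.mk hp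
  intro s
  induction s with
  | zero =>
    intro H _ hω1 z hz
    have hprim : IsPrimitiveRoot ω (p ^ (0 + 1)) := by
      rw [zero_add, pow_one]
      have := IsPrimitiveRoot.orderOf ω
      rwa [orderOf_eq_prime hω hω1] at this
    obtain ⟨w, hw, h⟩ := eval_res H (hprim.isIntegral (pow_pos hp.pos _))
    rw [zero_add, pow_one]
    refine dvd_of_pi hp hprim hw.neg ?_
    push_cast; rw [← hz, h]; ring
  | succ s ih =>
    intro H hH hω1 z hz
    have hq : 0 < p ^ (s + 1 + 1) := pow_pos hp.pos _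
    have hζ := Complex.isPrimitiveRoot_exp (p ^ (s + 1 + 1)) hq.ne'
    set ζ := Complex.exp (2 * Real.pi * Complex.I / (p ^ (s + 1 + 1) : ℕ))
    obtain ⟨z0, hz0⟩ := hH ζ hζ.pow_eq_one
    have h1 : aeval ζ (H - C z0) = 0 := by simp [hz0]
    have h2 := minpoly.isIntegrallyClosed_dvd (hζ.isIntegral hq) h1
    rw [← cyclotomic_eq_minpoly hζ hq] at h2
    obtain ⟨Q, hQ⟩ := h2
    have hcyc : ∀ η : ℂ, η ^ (p ^ (s + 1)) = 1 →
        aeval η H - z0 = p * aeval η Q := by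
      intro η hη
      have := congrArg (aeval η) hQ
      rw [cyclotomic_prime_pow_eq_geom_sum hp] at this
      simpa [hη] using this
    have hp0 : (p : ℂ) ≠ 0 := by exact_mod_cast hp.ne_zero
    have hQint : ∀ η : ℂ, η ^ (p ^ (s + 1)) = 1 → ∀ y : ℤ, aeval η H = y →
        ∃ z : ℤ, aeval η Q = z ∧ y - z0 = p * z := by
      intro η hη y hy
      have h3 := hcyc η hη
      obtain ⟨c, hc⟩ := dvd_of_isIntegral (a := y - z0) hp.pos
        (aeval_intg Q (root_intg (pow_pos hp.pos _) hη)) (by push_cast; rw [← hy, h3])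
      refine ⟨c, ?_, hc⟩
      apply mul_left_cancel₀ hp0
      rw [← h3, hy]; exact_mod_cast hc
    have hωs : ω ^ (p ^ (s + 1)) = 1 := by rw [pow_succ', pow_mul, hω, one_pow]
    obtain ⟨c, hc1, hc2⟩ := hQint ω hωs z hz
    have h4 := ih Q (fun η hη => by
      obtain ⟨y, hy⟩ := hH η (by rw [pow_succ, pow_mul, hη, one_pow])
      obtain ⟨c, hc, -⟩ := hQint η hη y hy
      exact ⟨c, hc⟩) hω1 c hc1
    have h5 : H.eval 1 - z0 = p * Q.eval 1 := by
      have := congrArg (eval 1) hQ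
      rw [eval_mul, eval_one_cyclotomic_prime_pow] at this
      simpa using this
    have h6 : H.eval 1 - z = p * (Q.eval 1 - c) := by linear_combination h5 - hc2
    rw [h6, pow_succ']
    exact mul_dvd_mul_left _ h4

end

end Pool.Agent.Lib.MP_e8b612_co
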