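import Mathlib

namespace Pool.Agent.Lib.MP_e8b612_co

/-- `A 0, ..., A (m-1)` is an `(n, m, k, lam)`-SEDF in the finite abelian group `G` (`n = |G|`):
the sets have size `k`, are pairwise disjoint, and for every `i` every non-zero `g` has exactly
`lam` representations `g = x - y` with `x ∈ A i` and `y` in the union of the other sets. -/
def IsSEDF {G : Type*} [AddCommGroup G] [Fintype G] [DecidableEq G] (m k lam : ℕ)
    (A : Fin m → Finset G) : Prop :=
  (∀ i, (A i).card = k) ∧ (∀ i j, i ≠ j → Disjoint (A i) (A j)) ∧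
    ∀ i, ∀ g : G, g ≠ 0 →
      ((A i ×ˢ (Finset.univ.erase i).biUnion A).filter (fun p => p.1 - p.2 = g)).card = lam

/-- The pairs `(a, b)` of coprime integers `a > b ≥ 1` with `(a + b) ∣ m - 2` and `a b ∣ lam`
(for `m > 2` such a pair has `a, b < m`). For `lam = 0` the last condition is void. -/
def pairs (m lam : ℕ) : Finset (ℕ × ℕ) :=
  (Finset.range m ×ˢ Finset.range m).filter
    (fun p => 1 ≤ p.2 ∧ p.2 < p.1 ∧ Nat.Coprime p.1 p.2 ∧ (p.1 + p.2) ∣ (m - 2) ∧ p.1 * p.2 ∣ lam)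

/-- The number `m * ∏ ((m-1) a + b) ((m-1) b + a)`, the product over `pairs m lam`. -/
def bigF (m lam : ℕ) : ℕ :=
  m * ∏ p ∈ pairs m lam, ((m - 1) * p.1 + p.2) * ((m - 1) * p.2 + p.1)

end Pool.Agent.Lib.MP_e8b612_co
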