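import Pool.Agent.Lib.MP_e8b612_co.Main
import Pool.Agent.Lib.MP_e8b612_co.Check

namespace Pool.Agent.Lib.MP_e8b612_co
open Finset

lemma prime_arith {p k m c y : ℕ} (hp : p.Prime) (hk : 1 < k) (hy : m = (p + 1) * y + 2)
    (hy0 : 0 < y) (hc : k ^ 2 * (m - 1) = p * (k * m + c))
    (hmean : k * m * (c + 1) ≤ (k * m + c) * (p - 1) ^ 2) : False := by
  obtain ⟨q, rfl⟩ : ∃ q, p = q + 1 := ⟨p - 1, by have := hp.one_lt; omega⟩
  obtain ⟨M, rfl⟩ : ∃ M, m = M + 1 := ⟨m - 1, by omega⟩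
  have hq : 1 ≤ q := by have := hp.one_lt; omega
  simp only [Nat.add_sub_cancel] at hc hmean
  have hM : q + 3 ≤ M := by nlinarith
  have h1 : q + 1 < k := by
    by_contra h
    have h' : k ≤ q + 1 := not_lt.1 h
    have : k ^ 2 * M ≤ (q + 1) * (k * M) := by
      rw [pow_two, mul_assoc]; exact Nat.mul_le_mul_right _ h'
    nlinarith
  have h2 : (q + 1) * (M + 1) * (c + 1) ≤ k * M * q ^ 2 := by
    have : k * ((q + 1) * (M + 1) * (c + 1)) ≤ k * (k * M * q ^ 2) := by
      calc k * ((q + 1) * (M + 1) * (c + 1)) = (q + 1) * (k * (M + 1) * (c + 1)) := by ring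
        _ ≤ (q + 1) * ((k * (M + 1) + c) * q ^ 2) := Nat.mul_le_mul_left _ hmean
        _ = ((q + 1) * (k * (M + 1) + c)) * q ^ 2 := by ring
        _ = k * (k * M * q ^ 2) := by rw [← hc]; ring
    exact Nat.le_of_mul_le_mul_left this (by omega)
  have h3 : k * M * (M + 1) < (q + 1) * (M + 1) ^ 2 + M * q ^ 2 := by
    have : k * (k * M * (M + 1)) < k * ((q + 1) * (M + 1) ^ 2 + M * q ^ 2) := by
      calc k * (k * M * (M + 1)) = (k ^ 2 * M) * (M + 1) := by ring
        _ = k * ((q + 1) * (M + 1) ^ 2) + (q + 1) * (M + 1) * c := by rw [hc]; ring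
        _ < k * ((q + 1) * (M + 1) ^ 2) + (q + 1) * (M + 1) * (c + 1) := by
            have : 0 < (q + 1) * (M + 1) := by positivity
            nlinarith
        _ ≤ k * ((q + 1) * (M + 1) ^ 2) + k * M * q ^ 2 := by omega
        _ = _ := by ring
    exact lt_of_mul_lt_mul_left this (Nat.zero_le _)
  have h4 : k < 2 * (q + 1) := by
    by_contra h
    have h' : 2 * (q + 1) ≤ k := not_lt.1 h
    have a1 : 2 * (q + 1) * (M * (M + 1)) ≤ k * (M * (M + 1)) := Nat.mul_le_mul_right _ h'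
    obtain ⟨t, rfl⟩ : ∃ t, M = q + 3 + t := ⟨M - (q + 3), by omega⟩
    nlinarith [Nat.zero_le (q * t), Nat.zero_le (q * t * t), Nat.zero_le (q * q * t)]
  have h5 : ¬ (q + 1) ∣ k := by
    rintro ⟨t, rfl⟩
    have : 1 < t := by nlinarith
    have : t < 2 := by nlinarith
    omega
  have h6 : (q + 1) ∣ M := by
    have : (q + 1) ∣ k ^ 2 * M := ⟨_, hc⟩
    rcases (Nat.Prime.dvd_mul hp).1 this with h | h
    · exact absurd (hp.dvd_of_dvd_pow h) h5
    · exact h
  have h7 : (q + 1) ∣ y + 1 := by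
    have e : M = (q + 1) * y + (y + 1) := by nlinarith
    rw [e] at h6
    exact (Nat.dvd_add_right (Dvd.intro _ rfl)).1 h6
  have h8 : q ≤ y := by have := Nat.le_of_dvd (by omega) h7; omega
  have h9 : (q + 1) ^ 2 ≤ M := by nlinarith
  have a1 : (q + 2) * (M * (M + 1)) ≤ k * (M * (M + 1)) := Nat.mul_le_mul_right _ h1
  obtain ⟨t, rfl⟩ : ∃ t, M = (q + 1) ^ 2 + t := ⟨M - (q + 1) ^ 2, by omega⟩
  nlinarith [Nat.zero_le (q * t), Nat.zero_le (t * t), Nat.zero_le (q * q * t),
    Nat.zero_le (q * q * q), Nat.zero_le (q * q)]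

variable {G : Type*} [AddCommGroup G] [Fintype G] [DecidableEq G]
variable {m k lam : ℕ} {A : Fin m → Finset G}

theorem not_prime (hA : IsSEDF m k lam A) (hm : 2 < m) (hk : 1 < k) : ¬ lam.Prime := by
  intro hp
  obtain ⟨⟨a, b⟩, hab, hmean⟩ := exists_pair_mean hA hm hk hp.pos
  obtain ⟨h1, h2, -, ⟨y, hy⟩, h5⟩ := pairs_lt hab
  simp only at h1 h2 hy h5 hmean
  have hb : b = 1 := by
    rcases (Nat.dvd_prime hp).1 h5 with h | h
    · exact Nat.eq_one_of_mul_eq_one_left h
    · rcases (Nat.dvd_prime hp).1 (Dvd.intro_left a h) with h' | h'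
      · exact h'
      · rw [← h'] at h; nlinarith
  subst hb
  have ha : a = lam := by
    rw [mul_one] at h5
    rcases (Nat.dvd_prime hp).1 h5 with h | h
    · omega
    · exact h
  subst ha
  have hlt := km_lt hA hm hk
  have hc := count_eq hA hm
  obtain ⟨c, hc'⟩ : ∃ c, Fintype.card G = k * m + c + 1 := ⟨Fintype.card G - k * m - 1, by omega⟩
  rw [hc'] at hc hmean
  have e1 : k * m + c + 1 - k * m = c + 1 := by omega
  rw [e1, Nat.add_sub_cancel] at hmean
  rw [Nat.add_sub_cancel] at hc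
  have hy0 : 0 < y := Nat.pos_of_mul_pos_left (hy ▸ (by omega : 0 < m - 2))
  refine prime_arith (y := y) hp hk (by omega) hy0 hc ?_
  have : a * (k * m * (c + 1)) ≤ a * ((k * m + c) * (a - 1) ^ 2) := by nlinarith
  exact Nat.le_of_mul_le_mul_left this hp.pos

theorem odd_case (hA : IsSEDF m k lam A) (hm : 2 < m) (hk : 1 < k) (hl : 0 < lam)
    (hodd : Odd (Fintype.card G)) : Even lam ∧ ∀ e, m - 2 ≠ 2 ^ e := by
  obtain ⟨⟨a, b⟩, hab, hnd⟩ := exists_pair_not_dvd hA hm hk hl Nat.prime_two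
    (by rw [← even_iff_two_dvd]; exact Nat.not_even_iff_odd.2 hodd)
  obtain ⟨h1, h2, -, h4, h5⟩ := pairs_lt hab
  simp only at h1 h2 h4 h5 hnd
  constructor
  · rw [even_iff_two_dvd]
    refine Dvd.dvd.trans ?_ h5
    by_cases ha : 2 ∣ a
    · exact ha.mul_right _
    · exact Dvd.dvd.mul_left (by omega) _
  · intro e he
    rw [he] at h4
    obtain ⟨i, -, hi⟩ := (Nat.dvd_prime_pow Nat.prime_two).1 h4
    rcases i with _ | i
    · omega
    · rw [pow_succ] at hi; omega

lemma bigF_dvd (m lam : ℕ) : bigF m lam ∣ bigF m 0 := by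
  apply Nat.mul_dvd_mul_left
  apply Finset.prod_dvd_prod_of_subset
  intro p hp
  simp only [pairs, mem_filter] at hp ⊢
  exact ⟨hp.1, hp.2.1, hp.2.2.1, hp.2.2.2.1, hp.2.2.2.2.1, dvd_zero _⟩

theorem coprime_dvd (hA : IsSEDF m k lam A) (hm : 2 < m) (hl : 0 < lam)
    (hcop : Nat.Coprime k (Fintype.card G)) : Fintype.card G ∣ bigF m lam :=
  (Nat.Coprime.pow_right _ hcop.symm).dvd_of_dvd_mul_left (card_dvd hA hm hl)

theorem coprime_small (hA : IsSEDF m k lam A) (hm : 2 < m) (hk : 1 < k) (hl : 0 < lam)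
    (hcop : Nat.Coprime k (Fintype.card G)) (hm' : m ≤ 11) :
    Fintype.card G = 243 ∧ m = 11 ∧ k = 22 ∧ lam = 20 := by
  have hmean := exists_pair_mean hA hm hk hl
  have hm5 : 5 ≤ m := by
    obtain ⟨p, hp, -⟩ := hmean
    obtain ⟨h1, h2, -, h4, -⟩ := pairs_lt hp
    have := Nat.le_of_dvd (by omega) h4
    omega
  have hc := count_eq hA hm
  have key := finite_check hm5 hm' hk ((coprime_dvd hA hm hl hcop).trans (bigF_dvd m lam))
    (fun r hr hrn => prime_dvd_m hA hm hl hr hrn (fun hrk =>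
      hr.one_lt.ne' (Nat.eq_one_of_dvd_coprimes hcop hrk hrn)))
    (km_lt hA hm hk) hcop hc
    ⟨coprime_dvd hA hm hl hcop, hmean, exists_pair_small hA hm hk hl, by
      rintro ⟨hn, rfl, rfl⟩
      rw [hn] at hc
      have hl' : lam = 192 := by omega
      subst hl'
      have := parity hA hm hk hl (by rw [hn]; decide) (d := 16) (by norm_num) (by
        intro p hp T hT
        have hp' : p = (4, 3) ∨ p = (6, 1) := by
          have : pairs 9 192 = {(4, 3), (6, 1)} := by decide +kernel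
          rw [this] at hp
          simpa using hp
        rcases hp' with rfl | rfl
        · simp only at hT ⊢; omega
        · simp only at hT ⊢; omega)
      rw [hn] at this
      norm_num at this⟩
  obtain ⟨hn, rfl, rfl⟩ := key
  rw [hn] at hc
  exact ⟨hn, rfl, rfl, by omega⟩

lemma bigF_pos (hm : 2 < m) : 0 < bigF m 0 := by
  apply Nat.mul_pos (by omega)
  apply Finset.prod_pos
  intro p hp
  obtain ⟨h1, h2, -⟩ := pairs_lt hp
  exact Nat.mul_pos (by omega) (by omega)

theorem squarefree_coprime (hA : IsSEDF m k lam A) (hm : 2 < m) (hsq : Squarefree lam) :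
    Nat.Coprime k (Fintype.card G) := by
  apply Nat.coprime_of_dvd
  intro r hr hrk hrn
  have hc := count_eq hA hm
  have hn : 1 ≤ Fintype.card G := Fintype.card_pos
  have h1 : r * r ∣ lam * (Fintype.card G - 1) := by
    rw [← hc, pow_two]; exact (Nat.mul_dvd_mul hrk hrk).mul_right _
  have h2 : Nat.Coprime r (Fintype.card G - 1) := by
    apply Nat.Coprime.coprime_dvd_left hrn
    exact (Nat.coprime_self_sub_right hn).2 (Nat.coprime_one_right _)
  have h3 : r * r ∣ lam := (Nat.Coprime.mul_left h2 h2).dvd_of_dvd_mul_right h1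
  exact hr.one_lt.ne' (Nat.isUnit_iff.1 (hsq r h3))

end Pool.Agent.Lib.MP_e8b612_co
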